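import Mathlib

set_option autoImplicit false
open Filter Topology Set

namespace Pool.Agent.Lib.MP_9ddde4_lc

variable {T : Type*} [TopologicalSpace T]

/-- countable unions of closed sets -/
def Fs (s : Set T) : Prop := ∃ F : ℕ → Set T, (∀ n, IsClosed (F n)) ∧ s = ⋃ n, F n

theorem Fs.of_closed {s : Set T} (h : IsClosed s) : Fs s :=
  ⟨fun _ => s, fun _ => h, (iUnion_const s).symm⟩

theorem Fs.of_open [TopologicalSpace.PseudoMetrizableSpace T] {s : Set T} (h : IsOpen s) : Fs s := by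
  let _ := TopologicalSpace.pseudoMetrizableSpacePseudoMetric T
  obtain ⟨F, hF, -, hU, -⟩ := h.exists_iUnion_isClosed
  exact ⟨F, hF, hU.symm⟩

theorem Fs.iUnion {ι : Type*} [Countable ι] {s : ι → Set T} (h : ∀ i, Fs (s i)) :
    Fs (⋃ i, s i) := by
  rcases isEmpty_or_nonempty ι with hι | hι
  · rw [iUnion_of_empty]; exact Fs.of_closed isClosed_empty
  choose F hF hs using h
  obtain ⟨e, he⟩ := exists_surjective_nat (ι × ℕ)
  refine ⟨fun n => F (e n).1 (e n).2, fun n => hF _ _, ?_⟩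
  ext x
  simp only [mem_iUnion]
  constructor
  · rintro ⟨i, hi⟩
    rw [hs i] at hi
    obtain ⟨m, hm⟩ := mem_iUnion.1 hi
    obtain ⟨n, hn⟩ := he (i, m)
    exact ⟨n, by rw [hn]; exact hm⟩
  · rintro ⟨n, hn⟩
    exact ⟨(e n).1, by rw [hs]; exact mem_iUnion.2 ⟨_, hn⟩⟩

theorem Fs.biUnion {ι : Type*} {I : Set ι} (hI : I.Countable) {s : ι → Set T}
    (h : ∀ i ∈ I, Fs (s i)) : Fs (⋃ i ∈ I, s i) := by
  rw [biUnion_eq_iUnion]
  have := hI.to_subtype
  exact Fs.iUnion fun i => h i i.2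

theorem Fs.union {s t : Set T} (hs : Fs s) (ht : Fs t) : Fs (s ∪ t) := by
  rw [union_eq_iUnion]
  exact Fs.iUnion fun b => by cases b <;> simpa

theorem Fs.inter {s t : Set T} (hs : Fs s) (ht : Fs t) : Fs (s ∩ t) := by
  obtain ⟨F, hF, rfl⟩ := hs
  obtain ⟨G, hG, rfl⟩ := ht
  rw [iUnion_inter]
  refine Fs.iUnion fun n => ?_
  rw [inter_iUnion]
  exact Fs.iUnion fun m => Fs.of_closed ((hF n).inter (hG m))

theorem Fs.image {S : Type*} [TopologicalSpace S] {e : T → S} (he : IsClosedMap e) {s : Set T}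
    (hs : Fs s) : Fs (e '' s) := by
  obtain ⟨F, hF, rfl⟩ := hs
  rw [image_iUnion]
  exact Fs.iUnion fun n => Fs.of_closed (he _ (hF n))

/-- countably many values, every level set is a countable union of closed sets -/
def PC (u : T → ℝ) : Prop := (range u).Countable ∧ ∀ r, Fs {x | u x = r}

theorem PC.const (c : ℝ) : PC (fun _ : T => c) := by
  refine ⟨(countable_singleton c).mono (by rintro _ ⟨x, rfl⟩; rfl), fun r => ?_⟩
  exact Fs.of_closed isClosed_const

theorem PC.of_cover {ι : Type*} [Countable ι] {u : T → ℝ} (A : ι → Set T) (v : ι → T → ℝ)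
    (hA : ∀ i, Fs (A i)) (hv : ∀ i, PC (v i)) (hcov : ∀ x, ∃ i, x ∈ A i)
    (heq : ∀ i, ∀ x ∈ A i, u x = v i x) : PC u := by
  constructor
  · refine (countable_iUnion fun i => (hv i).1).mono ?_
    rintro _ ⟨x, rfl⟩
    obtain ⟨i, hi⟩ := hcov x
    exact mem_iUnion.2 ⟨i, x, (heq i x hi).symm⟩
  · intro r
    have : {x | u x = r} = ⋃ i, A i ∩ {x | v i x = r} := by
      ext x
      simp only [mem_ofPred_eq, mem_iUnion, mem_inter_iff]
      constructor
      · intro hx
        obtain ⟨i, hi⟩ := hcov x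
        exact ⟨i, hi, by rw [← heq i x hi, hx]⟩
      · rintro ⟨i, hi, hx⟩
        rw [heq i x hi, hx]
    rw [this]
    exact Fs.iUnion fun i => (hA i).inter ((hv i).2 r)

open Classical in
/-- `u` on `s`, `v` off `s` -/
noncomputable def pw (s : Set T) (u v : T → ℝ) : T → ℝ := fun x => if x ∈ s then u x else v x

omit [TopologicalSpace T] in
theorem pw_in {s : Set T} {u v : T → ℝ} {x : T} (h : x ∈ s) : pw s u v x = u x := by
  simp [pw, h]

omit [TopologicalSpace T] in
theorem pw_out {s : Set T} {u v : T → ℝ} {x : T} (h : x ∉ s) : pw s u v x = v x := by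
  simp [pw, h]

theorem PC.pw {s : Set T} {u v : T → ℝ} (hs : Fs s) (hc : Fs sᶜ) (hu : PC u) (hv : PC v) :
    PC (pw s u v) := by
  refine PC.of_cover (ι := Bool) (fun b => cond b s sᶜ) (fun b => cond b u v)
    (fun b => by cases b <;> simpa) (fun b => by cases b <;> simpa) (fun x => ?_) (fun b x hx => ?_)
  · by_cases h : x ∈ s
    · exact ⟨true, h⟩
    · exact ⟨false, h⟩
  · cases b
    · exact pw_out hx
    · exact pw_in hx

theorem PC.pw_closed [TopologicalSpace.PseudoMetrizableSpace T] {s : Set T} {u v : T → ℝ}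
    (hs : IsClosed s) (hu : PC u) (hv : PC v) : PC (MP_9ddde4_lc.pw s u v) :=
  PC.pw (Fs.of_closed hs) (Fs.of_open hs.isOpen_compl) hu hv

theorem PC.fs_rel {u v : T → ℝ} (hu : PC u) (hv : PC v) (P : ℝ → ℝ → Prop) :
    Fs {x | P (u x) (v x)} := by
  have : {x | P (u x) (v x)} =
      ⋃ q ∈ (range u ×ˢ range v) ∩ {q | P q.1 q.2}, {x | u x = q.1} ∩ {x | v x = q.2} := by
    ext x
    simp only [mem_ofPred_eq, mem_iUnion, mem_inter_iff, mem_prod, exists_prop]
    constructor
    · intro h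
      exact ⟨(u x, v x), ⟨⟨⟨x, rfl⟩, ⟨x, rfl⟩⟩, h⟩, rfl, rfl⟩
    · rintro ⟨q, ⟨-, h⟩, h1, h2⟩
      rw [h1, h2]; exact h
  rw [this]
  exact Fs.biUnion ((hu.1.prod hv.1).mono inter_subset_left) fun q _ => (hu.2 _).inter (hv.2 _)

/-- Baire class 1 -/
def B1 (f : T → ℝ) : Prop :=
  ∃ u : ℕ → T → ℝ, (∀ n, Continuous (u n)) ∧ ∀ x, Tendsto (fun n => u n x) atTop (𝓝 (f x))

theorem PC.b1 [NormalSpace T] {u : T → ℝ} (hu : PC u) : B1 u := by
  choose F hF hFe using hu.2
  have hc := hu.1.to_subtype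
  rcases isEmpty_or_nonempty T with hT | hT
  · exact ⟨fun _ => u, fun _ => continuous_of_discreteTopology, fun x => isEmptyElim x⟩
  have : Nonempty (range u) := (range_nonempty u).to_subtype
  obtain ⟨e, he⟩ := exists_surjective_nat (range u × ℕ)
  set G : ℕ → Set T := fun n => F (e n).1 (e n).2 with hG
  have hGu : ∀ n, ∀ x ∈ G n, u x = (e n).1 := fun n x hx => by
    have : x ∈ {x | u x = ((e n).1 : ℝ)} := by rw [hFe]; exact mem_iUnion.2 ⟨_, hx⟩
    exact this
  have hcl : ∀ k, IsClosed (⋃ n ∈ Finset.range k, G n) := fun k =>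
    isClosed_biUnion_finset fun n _ => hF _ _
  have hco : ∀ k, ContinuousOn u (⋃ n ∈ Finset.range k, G n) := by
    intro k
    induction k with
    | zero => simp
    | succ k ih =>
      rw [Finset.range_add_one, Finset.set_biUnion_insert]
      exact ContinuousOn.union_of_isClosed
        (continuousOn_const.congr (hGu k)) ih (hF _ _) (hcl k)
  have hex : ∀ k, ∃ g : C(T, ℝ), ∀ x ∈ ⋃ n ∈ Finset.range k, G n, g x = u x := by
    intro k
    obtain ⟨g, hg⟩ := ContinuousMap.exists_restrict_eq (hcl k)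
      (⟨_, (hco k).domRestrict⟩ : C((⋃ n ∈ Finset.range k, G n : Set T), ℝ))
    exact ⟨g, fun x hx => by simpa using congrArg (fun φ => φ ⟨x, hx⟩) hg⟩
  choose g hg using hex
  refine ⟨fun k => g k, fun k => (g k).continuous, fun x => ?_⟩
  have hx : x ∈ ⋃ m, F (u x) m := by rw [← hFe]; rfl
  obtain ⟨m, hm⟩ := mem_iUnion.1 hx
  obtain ⟨n, hn⟩ := he (⟨u x, x, rfl⟩, m)
  refine tendsto_const_nhds.congr' ?_
  filter_upwards [eventually_gt_atTop n] with k hk
  refine (hg k x ?_).symm
  refine mem_iUnion₂.2 ⟨n, Finset.mem_range.2 hk, ?_⟩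
  simp only [hG, hn]; exact hm

theorem B1.of_unif {h : T → ℝ} {v : ℕ → T → ℝ} (hv : ∀ d, B1 (v d))
    (hh : ∀ d x, |h x - v d x| ≤ (1 / 2) ^ d) : B1 h := by
  choose u hu hlim using hv
  set c : ℕ → ℝ := fun d => 2 * (1 / 2) ^ d with hc
  have hcs : Summable c := summable_geometric_two.mul_left 2
  have hD : ∀ d x, |v (d + 1) x - v d x| ≤ c d := by
    intro d x
    have h1 := abs_le.1 (hh d x)
    have h2 := abs_le.1 (hh (d + 1) x)
    have h3 : (0 : ℝ) < (1 / 2) ^ d := by positivity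
    rw [pow_succ] at h2
    simp only [hc]
    rw [abs_le]; constructor <;> linarith
  have hc0 : ∀ d, 0 ≤ c d := fun d => by simp only [hc]; positivity
  set w : ℕ → ℕ → T → ℝ := fun k d x => max (-c d) (min (c d) (u (d + 1) k x - u d k x)) with hw
  have hwb : ∀ k d x, ‖w k d x‖ ≤ c d := by
    intro k d x
    rw [Real.norm_eq_abs, abs_le]
    exact ⟨le_max_left _ _, max_le (by linarith [hc0 d]) (min_le_left _ _)⟩
  refine ⟨fun k x => u 0 k x + ∑' d, w k d x, fun k => (hu 0 k).add ?_, fun x => ?_⟩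
  · refine continuous_tsum (fun d => ?_) hcs (hwb k)
    exact continuous_const.max (continuous_const.min ((hu _ _).sub (hu _ _)))
  · have h1 : Tendsto (fun k => ∑' d, w k d x) atTop (𝓝 (∑' d, (v (d + 1) x - v d x))) := by
      refine tendsto_tsum_of_dominated_convergence hcs (fun d => ?_)
        (Eventually.of_forall fun k d => hwb k d x)
      have := (tendsto_const_nhds (x := -c d)).max ((tendsto_const_nhds (x := c d)).min
        ((hlim (d + 1) x).sub (hlim d x)))
      have h2 := abs_le.1 (hD d x)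
      rwa [min_eq_right h2.2, max_eq_right h2.1] at this
    have h2 : ∑' d, (v (d + 1) x - v d x) = h x - v 0 x := by
      have hs : Summable fun d => v (d + 1) x - v d x :=
        Summable.of_norm_bounded hcs fun d => hD d x
      refine tendsto_nhds_unique hs.hasSum.tendsto_sum_nat ?_
      simp only [Finset.sum_range_sub (fun d => v d x)]
      refine Tendsto.sub_const ?_ _
      rw [tendsto_iff_norm_sub_tendsto_zero]
      refine squeeze_zero (fun _ => norm_nonneg _) (fun d => ?_)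
        (tendsto_pow_atTop_nhds_zero_of_lt_one (r := (1 / 2 : ℝ)) (by norm_num) (by norm_num))
      rw [Real.norm_eq_abs, abs_sub_comm]; exact hh d x
    have := (hlim 0 x).add h1
    rwa [h2, add_sub_cancel] at this

/-- uniform limits of `PC` functions -/
def UL (h : T → ℝ) : Prop :=
  ∃ v : ℕ → T → ℝ, (∀ d, PC (v d)) ∧ ∀ d x, |h x - v d x| ≤ (1 / 2) ^ d

theorem PC.ul {u : T → ℝ} (hu : PC u) : UL u :=
  ⟨fun _ => u, fun _ => hu, fun d x => by simp⟩

theorem exists_ul_between (f g : ℕ → T → ℝ) (hf : ∀ n, PC (f n)) (hg : ∀ n, PC (g n))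
    (hfm : Monotone f) (hgm : Antitone g) (hfg : ∀ n, f n ≤ g n)
    (hw : ∀ (d : ℕ) x, ∃ n, g n x - f n x ≤ (1 / 2) ^ d) :
    ∃ h, UL h ∧ ∀ n, f n ≤ h ∧ h ≤ g n := by
  classical
  have hle : ∀ n m x, f n x ≤ g m x := fun n m x =>
    (hfm (le_max_left n m) x).trans ((hfg _ x).trans (hgm (le_max_right n m) x))
  have hbd : ∀ x, BddAbove (range fun n => f n x) := fun x =>
    ⟨g 0 x, by rintro _ ⟨n, rfl⟩; exact hle n 0 x⟩
  have h1 : ∀ n x, f n x ≤ ⨆ n, f n x := fun n x => le_ciSup (hbd x) n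
  have h2 : ∀ n x, ⨆ n, f n x ≤ g n x := fun n x => ciSup_le fun m => hle m n x
  refine ⟨fun x => ⨆ n, f n x, ⟨fun d x => f (Nat.find (hw d x)) x, fun d => ?_, fun d x => ?_⟩,
    fun n => ⟨h1 n, h2 n⟩⟩
  · refine PC.of_cover (fun n => {x | Nat.find (hw d x) = n}) f (fun n => ?_) hf
      (fun x => ⟨_, rfl⟩) (fun n x hx => congrArg (fun k => f k x) hx)
    have key : ∀ n, Fs {x | ∀ m < n, ¬ g m x - f m x ≤ (1 / 2) ^ d} := by
      intro n
      induction n with
      | zero => simpa using Fs.of_closed isClosed_univ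
      | succ n ih =>
        have := ih.inter ((hf n).fs_rel (hg n) fun a b => ¬ b - a ≤ (1 / 2) ^ d)
        convert this using 1
        ext x
        simp only [mem_ofPred_eq, mem_inter_iff, Nat.forall_lt_succ_right]
    have := ((hf n).fs_rel (hg n) fun a b => b - a ≤ (1 / 2) ^ d).inter (key n)
    convert this using 1
    ext x
    simp only [mem_ofPred_eq, mem_inter_iff, Nat.find_eq_iff]
  · have h3 := Nat.find_spec (hw d x)
    have h4 := h1 (Nat.find (hw d x)) x
    have h5 := h2 (Nat.find (hw d x)) x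
    rw [abs_le]; constructor <;> [skip; linarith]
    have : (0 : ℝ) < (1 / 2) ^ d := by positivity
    linarith

/-- Baire: a tree of points with alternating membership -/
theorem tree_contra {Y : Type*} [TopologicalSpace Y] [PolishSpace Y] (D : Set Y) (h1 : IsGδ D)
    (h2 : IsGδ Dᶜ) (y : List ℕ → Y) (hy : ∀ ν, y ν ∈ D ↔ Even ν.length)
    (hl : ∀ ν, Tendsto (fun i => y (i :: ν)) atTop (𝓝 (y ν))) : False := by
  set K := closure (range y) with hK
  have hKc : IsClosed K := isClosed_closure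
  have : PolishSpace K := hKc.polishSpace
  have hne : Nonempty K := ⟨⟨y [], subset_closure ⟨_, rfl⟩⟩⟩
  have dense_of : ∀ E : Set Y, (∀ ν, y ν ∈ closure (E ∩ range y)) →
      Dense ((↑) ⁻¹' E : Set K) := by
    intro E hE
    rw [Subtype.dense_iff, Subtype.image_preimage_coe]
    refine closure_minimal ?_ isClosed_closure
    rintro _ ⟨ν, rfl⟩
    exact closure_mono (fun z (hz : z ∈ E ∩ range y) => (⟨subset_closure hz.2, hz.1⟩ : z ∈ K ∩ E)) (hE ν)
  have d1 : Dense ((↑) ⁻¹' D : Set K) := dense_of D fun ν => by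
    by_cases h : Even ν.length
    · exact subset_closure ⟨(hy ν).2 h, _, rfl⟩
    · refine mem_closure_of_tendsto (hl ν) (Eventually.of_forall fun i => ⟨(hy _).2 ?_, _, rfl⟩)
      rw [List.length_cons, Nat.even_add_one]; exact h
  have d2 : Dense ((↑) ⁻¹' Dᶜ : Set K) := dense_of Dᶜ fun ν => by
    by_cases h : Even ν.length
    · refine mem_closure_of_tendsto (hl ν) (Eventually.of_forall fun i => ⟨fun hi => ?_, _, rfl⟩)
      have := (hy _).1 hi
      rw [List.length_cons, Nat.even_add_one] at this; exact this h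
    · exact subset_closure ⟨fun hi => h ((hy ν).1 hi), _, rfl⟩
  obtain ⟨z, hz1, hz2⟩ := (Dense.inter_of_Gδ (h1.preimage continuous_subtype_val)
    (h2.preimage continuous_subtype_val) d1 d2).nonempty
  exact hz2 hz1

end Pool.Agent.Lib.MP_9ddde4_lc
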