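import Mathlib

/-! Trees of cells in a complete separable metric space that is not sigma-compact. -/

set_option autoImplicit false
open Filter Topology Set Metric

namespace Pool.Agent.Lib.MP_9ddde4_lc.Cl

variable {X Y : Type*} [MetricSpace X] [MetricSpace Y]

/-- subsets of sigma-compact sets -/
def Small (W : Set X) : Prop := ∃ S, IsSigmaCompact S ∧ W ⊆ S

theorem Small.mono {W V : Set X} (h : Small V) (hs : W ⊆ V) : Small W :=
  let ⟨S, h1, h2⟩ := h; ⟨S, h1, hs.trans h2⟩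

theorem small_iUnion {ι : Type*} [Countable ι] {W : ι → Set X} (h : ∀ i, Small (W i)) :
    Small (⋃ i, W i) := by
  choose S h1 h2 using h
  exact ⟨⋃ i, S i, isSigmaCompact_iUnion S h1, iUnion_mono h2⟩

theorem Small.union {W V : Set X} (h1 : Small W) (h2 : Small V) : Small (W ∪ V) := by
  rw [union_eq_iUnion]
  exact small_iUnion fun b => by cases b <;> simpa

theorem small_single (x : X) : Small ({x} : Set X) :=
  ⟨{x}, isCompact_singleton.isSigmaCompact, Subset.rfl⟩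

theorem not_small_univ (h : ¬ SigmaCompactSpace X) : ¬ Small (univ : Set X) := by
  rintro ⟨S, h1, h2⟩
  rw [univ_subset_iff.1 h2] at h1
  exact h ⟨h1⟩

/-- points around which `W` is large, jointly with the values of `p` -/
def cond (p : X → Y) (W : Set X) : Set X :=
  {w | w ∈ W ∧ ∀ η : ℝ, 0 < η → ¬ Small (W ∩ ball w η ∩ p ⁻¹' ball (p w) η)}

variable [SecondCountableTopology X] [SecondCountableTopology Y]

theorem small_diff (p : X → Y) (W : Set X) : Small (W \ cond p W) := by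
  have h : ∀ w : (W \ cond p W : Set X), ∃ η : ℝ, 0 < η ∧
      Small (W ∩ ball w.1 η ∩ p ⁻¹' ball (p w.1) η) := by
    intro w
    by_contra hn
    exact w.2.2 ⟨w.2.1, fun η h1 h2 => hn ⟨η, h1, h2⟩⟩
  choose η h1 h2 using h
  obtain ⟨T, hT, hU⟩ := TopologicalSpace.isOpen_iUnion_countable
    (fun w : (W \ cond p W : Set X) => ball w.1 (η w) ×ˢ ball (p w.1) (η w))
    fun w => isOpen_ball.prod isOpen_ball
  have := hT.to_subtype
  refine (small_iUnion fun w : T => h2 w.1).mono fun z hz => ?_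
  have h3 : (z, p z) ∈ ⋃ w : (W \ cond p W : Set X), ball w.1 (η w) ×ˢ ball (p w.1) (η w) :=
    mem_iUnion.2 ⟨⟨z, hz⟩, mem_ball_self (h1 _), mem_ball_self (h1 _)⟩
  rw [← hU] at h3
  obtain ⟨w, hw, h4, h5⟩ := mem_iUnion₂.1 h3
  exact mem_iUnion.2 ⟨⟨w, hw⟩, ⟨hz.1, h4⟩, h5⟩

theorem exists_near (p : X → Y) {W : Set X} {x : X} (hx : x ∈ cond p W) {ρ η : ℝ} (hρ : 0 < ρ)
    (hη : 0 < η) : ∃ w, w ∈ cond p W ∧ 0 < dist w x ∧ dist w x < ρ ∧ dist (p w) (p x) < η := by
  by_contra hn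
  refine hx.2 (min ρ η) (lt_min hρ hη)
    (((small_diff p W).union (small_single x)).mono fun z hz => ?_)
  by_cases h1 : z ∈ cond p W
  · by_cases h2 : z = x
    · exact Or.inr h2
    · exact absurd ⟨z, h1, dist_pos.2 h2, lt_of_lt_of_le hz.1.2 (min_le_left _ _),
        lt_of_lt_of_le hz.2 (min_le_right _ _)⟩ hn
  · exact Or.inl ⟨hz.1.1, h1⟩

theorem exists_ring (p : X → Y) {W : Set X} {x : X} (hx : x ∈ cond p W) {ρ : ℝ} (hρ : 0 < ρ) :
    ∃ e : ℕ → X, (∀ i, e i ∈ cond p W ∧ 0 < dist (e i) x ∧ dist (e i) x < ρ ∧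
      dist (p (e i)) (p x) < 1 / (2 * (i + 1))) ∧
      ∀ i j, i < j → 4 * dist (e j) x < dist (e i) x := by
  have h : ∀ (i : ℕ) (r : ℝ), 0 < r → ∃ w, w ∈ cond p W ∧ 0 < dist w x ∧ dist w x < r ∧
      dist (p w) (p x) < 1 / (2 * (i + 1)) := fun i r hr => exists_near p hx hr (by positivity)
  have : Nonempty X := ⟨x⟩
  choose! nx hnx using h
  let r : ℕ → ℝ := fun n => Nat.rec ρ (fun i r => dist (nx i r) x / 4) n
  have hs : ∀ i, r (i + 1) = dist (nx i (r i)) x / 4 := fun _ => rfl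
  have hpos : ∀ i, 0 < r i := by
    intro i
    induction i with
    | zero => exact hρ
    | succ i ih => rw [hs]; linarith [(hnx i _ ih).2.1]
  have hanti : Antitone r := antitone_nat_of_succ_le fun i => by
    rw [hs]; linarith [(hnx i _ (hpos i)).2.2.1, hpos i]
  refine ⟨fun i => nx i (r i), fun i => ?_, fun i j hij => ?_⟩
  · obtain ⟨h1, h2, h3, h4⟩ := hnx i _ (hpos i)
    exact ⟨h1, h2, h3.trans_le (hanti (Nat.zero_le i)), h4⟩
  · have h1 := (hnx j _ (hpos j)).2.2.1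
    have h2 := hanti (Nat.succ_le_of_lt hij)
    rw [hs] at h2
    linarith

variable [CompleteSpace X]

theorem exists_sep (p : X → Y) {W : Set X} (hW : ¬ Small W) :
    ∃ (ε : ℝ) (v : ℕ → X), 0 < ε ∧ (∀ n, v n ∈ cond p W) ∧
      ∀ m n, m ≠ n → ε ≤ dist (v m) (v n) := by
  have h1 : ¬ TotallyBounded (cond p W) := fun h => hW
    (((small_diff p W).union ⟨_, (isCompact_iff_totallyBounded_isComplete.2
      ⟨h.closure, isClosed_closure.isComplete⟩).isSigmaCompact, subset_closure⟩).mono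
      fun z hz => by
        by_cases c : z ∈ cond p W
        · exact Or.inr c
        · exact Or.inl ⟨hz, c⟩)
  rw [Metric.totallyBounded_iff] at h1
  push Not at h1
  obtain ⟨ε, hε, h2⟩ := h1
  obtain ⟨v, h3, h4⟩ := exists_seq_of_forall_finset_exists (fun w => w ∈ cond p W)
    (fun a b => ε ≤ dist a b) fun s _ => by
      obtain ⟨w, h5, h6⟩ := not_subset.1 (h2 s s.finite_toSet)
      refine ⟨w, h5, fun a ha => not_lt.1 fun c => h6 (mem_iUnion₂.2 ⟨a, ha, ?_⟩)⟩
      rwa [mem_ball, dist_comm]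
  refine ⟨ε, v, hε, h3, fun m n hmn => ?_⟩
  rcases lt_or_gt_of_ne hmn with c | c
  · exact h4 m n c
  · rw [dist_comm]; exact h4 n m c

/-- a node: a large set inside a closed cell inside an open cell -/
def Nd (Z : Set X) (a : Set X × Set X × Set X) : Prop :=
  ¬ Small a.1 ∧ a.1 ⊆ Z ∧ a.1 ⊆ interior a.2.1 ∧ IsClosed a.2.1 ∧ IsOpen a.2.2 ∧ a.2.1 ⊆ a.2.2

/-- the children of a node -/
structure Kids (p : X → Y) (Z : Set X) (a : Set X × Set X × Set X) (x : X) (y : Y)
    (k : ℕ → Set X × Set X × Set X) : Prop where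
  xw : x ∈ a.1
  yw : y ∈ closure (p '' a.1)
  nd : ∀ i, Nd Z (k i)
  ww : ∀ i, (k i).1 ⊆ a.1
  uc : ∀ i, (k i).2.2 ⊆ a.2.1
  dis : ∀ i j, i ≠ j → Disjoint (k i).2.2 (k j).2.2
  xu : ∀ i, x ∉ (k i).2.2
  lf : LocallyFinite fun i => if Odd i then (k i).2.1 else ∅
  sm : ∀ i, p '' (k i).1 ⊆ closedBall (if Odd i then y else p x) (1 / (i + 1))
  di : ∀ i, ∃ w, (k i).2.1 ⊆ closedBall w (1 / (i + 1))

theorem exists_kids (p : X → Y) {Z : Set X} {K : Set Y} (hK : IsCompact K) (hZ : MapsTo p Z K)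
    {a : Set X × Set X × Set X} (ha : Nd Z a) : ∃ x y k, Kids p Z a x y k := by
  obtain ⟨W, C, U⟩ := a
  obtain ⟨a1, a2, a3, a4, a5, a6⟩ := ha
  dsimp only at a1 a2 a3 a4 a5 a6
  obtain ⟨ε, v, hε, hv, hsep⟩ := exists_sep p a1
  obtain ⟨y, -, φ, hφ, hlim⟩ := hK.tendsto_subseq (x := fun n => p (v (n + 1)))
    fun n => hZ (a2 (hv _).1)
  obtain ⟨ψ, hψ, hnear⟩ := extraction_forall_of_eventually
    (P := fun n k => dist (p (v (φ k + 1))) y < 1 / (2 * ((n : ℝ) + 1)))
    fun n => Metric.tendsto_nhds.1 hlim _ (by positivity)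
  obtain ⟨e, he, hee⟩ := exists_ring p (hv 0) (ρ := ε / 4) (by positivity)
  let w : ℕ → X := fun i => if Odd i then v (φ (ψ i) + 1) else e i
  let R : ℕ → ℝ := fun i => if Odd i then ε / 4 else dist (e i) (v 0) / 2
  have hw : ∀ i, w i ∈ cond p W := fun i => by
    simp only [w]; split_ifs; exacts [hv _, (he i).1]
  have hR : ∀ i, 0 < R i := fun i => by
    simp only [R]; split_ifs; exacts [by positivity, by linarith [(he i).2.1]]
  have hδ : ∀ i : ℕ, ∃ δ : ℝ, 0 < δ ∧ 2 * δ ≤ R i ∧ ball (w i) (2 * δ) ⊆ C ∧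
      δ ≤ 1 / (2 * (i + 1)) := by
    intro i
    obtain ⟨r, hr, h1⟩ := Metric.mem_nhds_iff.1 (mem_interior_iff_mem_nhds.1 (a3 (hw i).1))
    have h2 : (0 : ℝ) < 1 / (2 * (i + 1)) := by positivity
    refine ⟨min (min (R i / 2) (r / 2)) (1 / (2 * (i + 1))),
      lt_min (lt_min (half_pos (hR i)) (half_pos hr)) h2, ?_, (ball_subset_ball ?_).trans h1,
      min_le_right _ _⟩
    · linarith [(min_le_left (min (R i / 2) (r / 2)) (1 / (2 * ((i : ℝ) + 1)))),
        min_le_left (R i / 2) (r / 2)]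
    · linarith [(min_le_left (min (R i / 2) (r / 2)) (1 / (2 * ((i : ℝ) + 1)))),
        min_le_right (R i / 2) (r / 2)]
  choose δ d1 d2 d3 d4 using hδ
  have hhalf : ∀ i : ℕ, (1 : ℝ) / (2 * (i + 1)) + 1 / (2 * (i + 1)) = 1 / (i + 1) := fun i => by
    field_simp; ring
  have hoo : ∀ i j, i ≠ j → Odd i → Odd j → ε ≤ dist (w i) (w j) := fun i j hij hi hj => by
    simp only [w, if_pos hi, if_pos hj]
    exact hsep _ _ fun c => hij ((hφ.comp hψ).injective (Nat.succ_injective c))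
  have hox : ∀ i, Odd i → ε ≤ dist (w i) (v 0) := fun i hi => by
    simp only [w, if_pos hi]
    exact hsep _ _ (Nat.succ_ne_zero _)
  have hRo : ∀ i, Odd i → 2 * δ i ≤ ε / 4 := fun i hi => by
    have := d2 i
    simpa only [R, if_pos hi] using this
  have hRe : ∀ i, ¬ Odd i → w i = e i ∧ 2 * δ i ≤ dist (e i) (v 0) / 2 := fun i hi => by
    have := d2 i
    simp only [R, if_neg hi] at this
    exact ⟨if_neg hi, this⟩
  have hoe : ∀ i j, Odd i → ¬ Odd j → Disjoint (ball (w i) (2 * δ i)) (ball (w j) (2 * δ j)) := by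
    intro i j hi hj
    refine ball_disjoint_ball ?_
    obtain ⟨h1, h2⟩ := hRe j hj
    have h3 := dist_triangle (w i) (w j) (v 0)
    rw [h1] at h3 ⊢
    linarith [hox i hi, hRo i hi, (he j).2.2.1]
  have hev : ∀ i j, i < j → ¬ Odd i → ¬ Odd j →
      Disjoint (ball (w i) (2 * δ i)) (ball (w j) (2 * δ j)) := by
    intro i j hij hi hj
    refine ball_disjoint_ball ?_
    obtain ⟨h1, h2⟩ := hRe i hi
    obtain ⟨h3, h4⟩ := hRe j hj
    have h5 := dist_triangle (e i) (e j) (v 0)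
    rw [h1, h3]
    linarith [hee i j hij, (he j).2.1]
  refine ⟨v 0, y, fun i => (W ∩ ball (w i) (δ i) ∩ p ⁻¹' ball (p (w i)) (δ i),
    closedBall (w i) (δ i), ball (w i) (2 * δ i)), (hv 0).1, ?_, fun i => ?_,
    fun i z hz => hz.1.1, d3, fun i j hij => ?_, fun i hi => ?_, fun z => ?_, fun i => ?_,
    fun i => ⟨w i, closedBall_subset_closedBall ?_⟩⟩
  · exact mem_closure_of_tendsto hlim (Eventually.of_forall fun n => ⟨_, (hv _).1, rfl⟩)
  · exact ⟨(hw i).2 _ (d1 i), fun z hz => a2 hz.1.1,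
      fun z hz => ball_subset_interior_closedBall hz.1.2, isClosed_closedBall, isOpen_ball,
      closedBall_subset_ball (by linarith [d1 i])⟩
  · by_cases hi : Odd i <;> by_cases hj : Odd j
    · exact ball_disjoint_ball (by linarith [hoo i j hij hi hj, hRo i hi, hRo j hj])
    · exact hoe i j hi hj
    · exact (hoe j i hj hi).symm
    · rcases lt_or_gt_of_ne hij with c | c
      · exact hev i j c hi hj
      · exact (hev j i c hj hi).symm
  · have h1 : dist (v 0) (w i) < 2 * δ i := hi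
    rw [dist_comm] at h1
    by_cases c : Odd i
    · linarith [hox i c, hRo i c]
    · obtain ⟨h2, h3⟩ := hRe i c
      rw [h2] at h1
      linarith [(he i).2.1]
  · refine ⟨ball z (ε / 4), ball_mem_nhds _ (by positivity), Subsingleton.finite ?_⟩
    have h1 : ∀ i, ((if Odd i then closedBall (w i) (δ i) else ∅) ∩ ball z (ε / 4)).Nonempty →
        Odd i ∧ dist (w i) z < ε / 2 := by
      rintro i ⟨u, h2, h3⟩
      by_cases c : Odd i
      · rw [if_pos c, mem_closedBall] at h2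
        rw [mem_ball] at h3
        have h4 := dist_triangle_left (w i) z u
        exact ⟨c, by linarith [hRo i c, d1 i]⟩
      · rw [if_neg c] at h2
        exact h2.elim
    intro i hi j hj
    by_contra hij
    have h2 := dist_triangle_right (w i) (w j) z
    linarith [hoo i j hij (h1 i hi).1 (h1 j hj).1, (h1 i hi).2, (h1 j hj).2]
  · rintro _ ⟨z, hz, rfl⟩
    have h1 : dist (p z) (p (w i)) < δ i := hz.2
    have h2 : dist (p (w i)) (if Odd i then y else p (v 0)) < 1 / (2 * (i + 1)) := by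
      simp only [w]
      split_ifs
      exacts [hnear i, (he i).2.2.2]
    have h3 := dist_triangle (p z) (p (w i)) (if Odd i then y else p (v 0))
    rw [mem_closedBall]
    linarith [hhalf i, d4 i]
  · have : (0 : ℝ) < 1 / (2 * (i + 1)) := by positivity
    linarith [hhalf i, d4 i]

/-- a tree of cells with marked points -/
structure Sch (p : X → Y) (Z : Set X) where
  x : List ℕ → X
  y : List ℕ → Y
  C : List ℕ → Set X
  U : List ℕ → Set X
  B : List ℕ → Set Y
  cl : ∀ s, IsClosed (C s)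
  op : ∀ s, IsOpen (U s)
  cu : ∀ s, C s ⊆ U s
  uc : ∀ s i, U (i :: s) ⊆ C s
  dis : ∀ s i j, i ≠ j → Disjoint (U (i :: s)) (U (j :: s))
  xc : ∀ s, x s ∈ C s
  xu : ∀ s i, x s ∉ U (i :: s)
  xz : ∀ s, x s ∈ Z
  lf : ∀ s, LocallyFinite fun i => if Odd i then C (i :: s) else ∅
  bb : ∀ s i, B (i :: s) ⊆ B s
  yb : ∀ s, y s ∈ B s
  pb : ∀ s, p (x s) ∈ B s
  sm : ∀ s (i : ℕ), B (i :: s) ⊆ closedBall (if Odd i then y s else p (x s)) (1 / (i + 1))

theorem exists_sch (p : X → Y) {Z : Set X} {K : Set Y} (hK : IsCompact K) (hZ : MapsTo p Z K)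
    (hL : ¬ Small Z) :
    ∃ T : Sch p Z, ∀ s (i : ℕ), ∃ w, T.C (i :: s) ⊆ closedBall w (1 / (i + 1)) := by
  have h : ∀ a : {a // Nd Z a}, ∃ x y k, Kids p Z a.1 x y k := fun a => exists_kids p hK hZ a.2
  choose x y k hk using h
  let nd : List ℕ → {a // Nd Z a} := fun s => List.rec
    ⟨(Z, univ, univ), hL, Subset.rfl, by simp, isClosed_univ, isOpen_univ, Subset.rfl⟩
    (fun i _ a => ⟨k a i, (hk a).nd i⟩) s
  have hs : ∀ s i, (nd (i :: s)).1 = k (nd s) i := fun _ _ => rfl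
  refine ⟨⟨fun s => x (nd s), fun s => y (nd s), fun s => (nd s).1.2.1, fun s => (nd s).1.2.2,
    fun s => closure (p '' (nd s).1.1), fun s => (nd s).2.2.2.2.1, fun s => (nd s).2.2.2.2.2.1,
    fun s => (nd s).2.2.2.2.2.2, fun s i => (hk (nd s)).uc i, fun s => (hk (nd s)).dis,
    fun s => interior_subset ((nd s).2.2.2.1 (hk (nd s)).xw), fun s => (hk (nd s)).xu,
    fun s => (nd s).2.2.1 (hk (nd s)).xw, fun s => (hk (nd s)).lf,
    fun s i => closure_mono (image_mono ((hk (nd s)).ww i)), fun s => (hk (nd s)).yw,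
    fun s => subset_closure ⟨_, (hk (nd s)).xw, rfl⟩,
    fun s i => closure_minimal ((hk (nd s)).sm i) isClosed_closedBall⟩,
    fun s i => (hk (nd s)).di i⟩

end Pool.Agent.Lib.MP_9ddde4_lc.Cl
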