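import Pool.Agent.Lib.MP_9ddde4_lc.ClA
import Pool.Agent.Lib.MP_9ddde4_lc.Basic

/-! No monotone map into the Baire class 1 functions along a tree of cells. -/

set_option autoImplicit false
open Filter Topology Set Metric Encodable

namespace Pool.Agent.Lib.MP_9ddde4_lc.Cl

variable {X Y : Type*} [MetricSpace X] [MetricSpace Y] {p : X → Y} {Z : Set X}

theorem gd_ge {T : Type*} [TopologicalSpace T] {g : T → ℝ} (hg : B1 g) (c : ℝ) :
    IsGδ {y | c ≤ g y} := by
  obtain ⟨u, hu, hl⟩ := hg
  have : {y | c ≤ g y} =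
      ⋂ k : ℕ, ⋂ N : ℕ, ⋃ n ∈ {n | N ≤ n}, {y | c - 1 / (k + 1) < u n y} := by
    ext y
    simp only [mem_setOf_eq, mem_iInter, mem_iUnion, exists_prop]
    constructor
    · intro h k N
      have h1 : c - 1 / ((k : ℝ) + 1) < g y := by
        have : (0 : ℝ) < 1 / ((k : ℝ) + 1) := by positivity
        linarith
      obtain ⟨n, h2, h3⟩ := ((eventually_ge_atTop N).and ((hl y).eventually_const_lt h1)).exists
      exact ⟨n, h2, h3⟩
    · intro h
      by_contra hn
      obtain ⟨k, hk⟩ := exists_nat_one_div_lt (sub_pos.2 (not_le.1 hn))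
      obtain ⟨N, hN⟩ := eventually_atTop.1
        ((hl y).eventually_lt_const (show g y < c - 1 / ((k : ℝ) + 1) by linarith))
      obtain ⟨n, h1, h2⟩ := h k N
      linarith [hN n h1]
  rw [this]
  exact IsGδ.iInter fun k => IsGδ.iInter fun N => IsOpen.isGδ
    (isOpen_biUnion fun n _ => isOpen_lt continuous_const (hu n))

theorem gd_le {T : Type*} [TopologicalSpace T] {g : T → ℝ} (hg : B1 g) (c : ℝ) :
    IsGδ {y | g y ≤ c} := by
  obtain ⟨u, hu, hl⟩ := hg
  have := gd_ge (g := fun y => - g y) ⟨fun n y => - u n y, fun n => (hu n).neg,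
    fun y => (hl y).neg⟩ (-c)
  simpa using this

theorem baire_contra [CompleteSpace Y] {G H Q R : Set Y} (hG : IsGδ G) (hH : IsGδ H)
    (hd : Disjoint G H) (h1 : Q ⊆ G) (h2 : R ⊆ H) (hne : Q.Nonempty) (h3 : Q ⊆ closure R)
    (h4 : R ⊆ closure Q) : False := by
  have hc : IsClosed (closure Q) := isClosed_closure
  have := hc.completeSpace_coe
  have : Nonempty (closure Q) := hne.closure.to_subtype
  have d1 : Dense ((↑) ⁻¹' G : Set (closure Q)) := by
    rw [Subtype.dense_iff, Subtype.image_preimage_coe]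
    exact closure_mono fun z hz => ⟨subset_closure hz, h1 hz⟩
  have d2 : Dense ((↑) ⁻¹' H : Set (closure Q)) := by
    rw [Subtype.dense_iff, Subtype.image_preimage_coe]
    exact closure_minimal (h3.trans (closure_mono fun z hz => ⟨h4 hz, h2 hz⟩)) isClosed_closure
  obtain ⟨z, hz1, hz2⟩ := (Dense.inter_of_Gδ (hG.preimage continuous_subtype_val)
    (hH.preimage continuous_subtype_val) d1 d2).nonempty
  exact disjoint_left.1 hd hz1 hz2

theorem mem_closure_of_near {a : Y} {Q : Set Y}
    (h : ∀ n : ℕ, ∃ i : ℕ, n ≤ i ∧ ∃ b ∈ Q, dist b a ≤ 1 / (i + 1)) : a ∈ closure Q := by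
  refine Metric.mem_closure_iff.2 fun ε hε => ?_
  obtain ⟨n, hn⟩ := exists_nat_one_div_lt hε
  obtain ⟨i, h1, b, h2, h3⟩ := h n
  refine ⟨b, h2, ?_⟩
  rw [dist_comm]
  exact (h3.trans (Nat.one_div_le_one_div h1)).trans_lt hn

theorem enc_le {s t : List ℕ} (h : s <:+ t) : encode s ≤ encode t := by
  induction t with
  | nil => rw [List.suffix_nil.1 h]
  | cons i t ih =>
    rcases List.suffix_cons_iff.1 h with e | e
    · rw [e]
    · refine (ih e).trans ?_
      rw [encode_list_cons]
      exact Nat.le_succ_of_le (Nat.right_le_pair _ _)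

namespace Sch

variable (T : Sch p Z)

theorem nest {s t : List ℕ} (h : s <:+ t) : T.C t ⊆ T.C s ∧ T.U t ⊆ T.U s ∧ T.B t ⊆ T.B s := by
  induction t with
  | nil => rw [List.suffix_nil.1 h]; exact ⟨Subset.rfl, Subset.rfl, Subset.rfl⟩
  | cons i t ih =>
    rcases List.suffix_cons_iff.1 h with e | e
    · rw [e]; exact ⟨Subset.rfl, Subset.rfl, Subset.rfl⟩
    · obtain ⟨h1, h2, h3⟩ := ih e
      exact ⟨((T.cu _).trans (T.uc t i)).trans h1, ((T.uc t i).trans (T.cu t)).trans h2,
        (T.bb t i).trans h3⟩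

theorem mem_C {s t : List ℕ} (h : s <:+ t) : T.x t ∈ T.C s := (T.nest h).1 (T.xc t)

theorem suffix_of_mem {s t : List ℕ} (h : T.x t ∈ T.U s) : s <:+ t := by
  induction s with
  | nil => exact List.nil_suffix
  | cons i s ih =>
    obtain ⟨w, rfl⟩ := ih (T.cu s (T.uc s i h))
    rcases List.eq_nil_or_concat w with rfl | ⟨w', j, rfl⟩
    · exact absurd h (T.xu s i)
    · have h1 : j :: s <:+ w'.concat j ++ s := ⟨w', by simp⟩
      by_cases c : i = j
      · rw [c]; exact h1
      · exact absurd (T.cu _ (T.mem_C h1)) (disjoint_left.1 (T.dis s i j c) h)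

theorem near (s : List ℕ) (i : ℕ) :
    dist (T.y (i :: s)) (if Odd i then T.y s else p (T.x s)) ≤ 1 / (i + 1) ∧
      dist (p (T.x (i :: s))) (if Odd i then T.y s else p (T.x s)) ≤ 1 / (i + 1) :=
  ⟨T.sm s i (T.yb _), T.sm s i (T.pb _)⟩

/-- a subtree -/
def comp (φ : List ℕ → List ℕ) (J : List ℕ → ℕ → ℕ) (h1 : ∀ t i, J t i :: φ t <:+ φ (i :: t))
    (h2 : ∀ t i, i ≤ J t i) (h3 : ∀ t i, Odd (J t i) ↔ Odd i)
    (h4 : ∀ t, Function.Injective (J t)) : Sch p Z where
  x t := T.x (φ t)
  y t := T.y (φ t)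
  C t := T.C (φ t)
  U t := T.U (φ t)
  B t := T.B (φ t)
  cl _ := T.cl _
  op _ := T.op _
  cu _ := T.cu _
  uc t i := (T.nest (h1 t i)).2.1.trans (T.uc _ _)
  dis t i j hij := (T.dis (φ t) _ _ ((h4 t).ne hij)).mono (T.nest (h1 t i)).2.1
    (T.nest (h1 t j)).2.1
  xc _ := T.xc _
  xu t i h := T.xu _ _ ((T.nest (h1 t i)).2.1 h)
  xz _ := T.xz _
  lf t := ((T.lf (φ t)).comp_injective (h4 t)).subset fun i => by
    by_cases c : Odd i
    · simp only [Function.comp, if_pos c, if_pos ((h3 t i).2 c)]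
      exact (T.nest (h1 t i)).1
    · simp only [if_neg c]
      exact empty_subset _
  bb t i := (T.nest (h1 t i)).2.2.trans (T.bb _ _)
  yb _ := T.yb _
  pb _ := T.pb _
  sm t i := by
    refine ((T.nest (h1 t i)).2.2.trans (T.sm _ _)).trans ?_
    simp only [h3 t i]
    exact closedBall_subset_closedBall (Nat.one_div_le_one_div (h2 t i))

end Sch

/-- the children kept at the moved node -/
def jj (i : ℕ) : ℕ := if Odd i then 2 * i + 1 else i

theorem jj_ge (i : ℕ) : i ≤ jj i := by unfold jj; split_ifs <;> omega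

theorem jj_odd (i : ℕ) : Odd (jj i) ↔ Odd i := by
  unfold jj; split_ifs with h
  · exact iff_of_true (odd_two_mul_add_one i) h
  · rfl

theorem jj_ne (i k : ℕ) : jj i ≠ 4 * k + 1 := by
  unfold jj; split_ifs with h
  · rw [Nat.odd_iff] at h; omega
  · rw [Nat.odd_iff] at h; omega

theorem jj_inj : Function.Injective jj := by
  intro a b h
  unfold jj at h
  simp only [Nat.odd_iff] at h
  split_ifs at h <;> omega

/-- move the node `s` to `u` -/
def mv (s u : List ℕ) : List ℕ → List ℕ
  | [] => if s = [] then u else []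
  | i :: t => if i :: t = s then u else if t = s then jj i :: u else i :: mv s u t

theorem mv_self (s u : List ℕ) : mv s u s = u := by
  cases s <;> simp [mv]

theorem mv_out (s u : List ℕ) {t : List ℕ} (h : ¬ s <:+ t) : mv s u t = t := by
  induction t with
  | nil => rw [mv, if_neg fun e => h (by rw [e])]
  | cons i t ih =>
    have h1 : ¬ s <:+ t := fun e => h (e.trans (List.suffix_cons i t))
    rw [mv, if_neg fun e => h (by rw [e]), if_neg fun e => h1 (by rw [e]), ih h1]

theorem mv_step {s u : List ℕ} (h : s <:+ u) (t : List ℕ) (i : ℕ) :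
    (if t = s then jj i else i) :: mv s u t <:+ mv s u (i :: t) := by
  rw [mv]
  by_cases c : i :: t = s
  · have h1 : ¬ s <:+ t := fun e => by
      have := e.length_le
      rw [← c, List.length_cons] at this
      omega
    rw [if_pos c, if_neg fun e => h1 (by rw [e]), mv_out s u h1, c]
    exact h
  · rw [if_neg c]
    by_cases d : t = s
    · rw [if_pos d, if_pos d, d, mv_self]
    · rw [if_neg d, if_neg d]

theorem mv_in {s t : List ℕ} (u : List ℕ) (h : s <:+ t) :
    t = s ∨ ∃ i, jj i :: u <:+ mv s u t := by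
  induction t with
  | nil => exact Or.inl (List.suffix_nil.1 h).symm
  | cons i t ih =>
    by_cases c : i :: t = s
    · exact Or.inl c
    · refine Or.inr ?_
      rw [mv, if_neg c]
      by_cases d : t = s
      · rw [if_pos d]; exact ⟨i, List.suffix_refl _⟩
      · rw [if_neg d]
        obtain ⟨j, e⟩ := (ih ((List.suffix_cons_iff.1 h).resolve_left
          fun e => c e.symm)).resolve_left d
        exact ⟨j, e.trans (List.suffix_cons _ _)⟩

/-- the alternating subtree above `s` -/
def alt (s : List ℕ) : List ℕ → List ℕ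
  | [] => s
  | i :: v => (if Even v.length then 4 * i + 1 else 2 * i) :: alt s v

theorem alt_len (s v : List ℕ) : (alt s v).length = s.length + v.length := by
  induction v with
  | nil => rfl
  | cons i v ih => rw [alt, List.length_cons, ih, List.length_cons, Nat.add_assoc]

theorem alt_suffix (s v : List ℕ) : s <:+ alt s v := by
  induction v with
  | nil => exact List.suffix_refl _
  | cons i v ih => exact ih.trans (List.suffix_cons _ _)

theorem alt_above {s v w : List ℕ} (hv : Even v.length) (h : alt s v <:+ alt s w) :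
    (alt s v = alt s w ∧ v.length = w.length) ∨ ∃ i, (4 * i + 1) :: alt s v <:+ alt s w := by
  have hl : ∀ w, alt s v = alt s w → v.length = w.length := fun w e => by
    have := congrArg List.length e
    rw [alt_len, alt_len] at this
    omega
  induction w with
  | nil =>
    have e := h.eq_of_length_le (alt_suffix s v).length_le
    exact Or.inl ⟨e, hl _ e⟩
  | cons i w ih =>
    rcases List.suffix_cons_iff.1 h with e | e
    · exact Or.inl ⟨e, hl (i :: w) e⟩
    · refine Or.inr ?_
      rcases ih e with ⟨e1, e2⟩ | ⟨j, e1⟩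
      · refine ⟨i, ?_⟩
        rw [alt, ← e2, if_pos hv, e1]
      · exact ⟨j, e1.trans (List.suffix_cons _ _)⟩

/-- the data of a monotone map with witnesses -/
structure Mon (E : Set X → Y → ℝ) (p : X → Y) (Z : Set X) (r s : ℝ) : Prop where
  b1 : ∀ A, IsClosed A ∨ IsOpen A → B1 (E A)
  mono : ∀ A A', IsClosed A ∨ IsOpen A → IsClosed A' ∨ IsOpen A' → A ⊆ A' → E A ≤ E A'
  lo : ∀ x ∈ Z, E {x}ᶜ (p x) ≤ r
  hi : ∀ x ∈ Z, s ≤ E {x} (p x)

variable {E : Set X → Y → ℝ} {r m q : ℝ} [CompleteSpace Y]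

theorem fusion (hE : Mon E p Z r q) (hrm : r < m) (T0 : Sch p Z)
    (h : ∀ (T : Sch p Z) (s : List ℕ), ∃ T' : Sch p Z,
      (∀ t, encode t < encode s → T'.x t = T.x t ∧ T'.y t = T.y t) ∧ range T'.x ⊆ range T.x ∧
        m ≤ E (closure (range T'.x))ᶜ (T'.y s)) : False := by
  choose nx h1 h2 h3 using h
  let T : ℕ → Sch p Z := fun n => Nat.rec T0 (fun n T => nx T (Denumerable.ofNat (List ℕ) n)) n
  have hs : ∀ n, T (n + 1) = nx (T n) (Denumerable.ofNat (List ℕ) n) := fun _ => rfl
  have hanti : Antitone fun n => range (T n).x := antitone_nat_of_succ_le fun n => h2 _ _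
  let x : List ℕ → X := fun s => (T (encode s + 1)).x s
  let y : List ℕ → Y := fun s => (T (encode s + 1)).y s
  have hst : ∀ s k, encode s + 1 ≤ k → (T k).x s = x s ∧ (T k).y s = y s := by
    intro s k hk
    induction k, hk using Nat.le_induction with
    | base => exact ⟨rfl, rfl⟩
    | succ k hk ih =>
      have := h1 (T k) (Denumerable.ofNat (List ℕ) k) s
        (by rw [Denumerable.encode_ofNat]; omega)
      rw [hs]
      exact ⟨this.1.trans ih.1, this.2.trans ih.2⟩
  have hx : ∀ k, range x ⊆ range (T k).x := by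
    rintro k _ ⟨s, rfl⟩
    exact hanti (le_max_left k (encode s + 1)) ⟨s, (hst s _ (le_max_right _ _)).1⟩
  have hA : IsOpen (closure (range x))ᶜ := isClosed_closure.isOpen_compl
  have hnear : ∀ s (i : ℕ), dist (y (i :: s)) (if Odd i then y s else p (x s)) ≤ 1 / (i + 1) ∧
      dist (p (x (i :: s))) (if Odd i then y s else p (x s)) ≤ 1 / (i + 1) := by
    intro s i
    have e1 := hst s _ (le_max_left (encode s + 1) (encode (i :: s) + 1))
    have e2 := hst (i :: s) _ (le_max_right (encode s + 1) (encode (i :: s) + 1))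
    have := (T (max (encode s + 1) (encode (i :: s) + 1))).near s i
    rwa [e1.1, e1.2, e2.1, e2.2] at this
  refine baire_contra (gd_ge (hE.b1 _ (Or.inr hA)) m) (gd_le (hE.b1 _ (Or.inr hA)) r)
    (disjoint_left.2 fun z a b => absurd (le_trans a b) (not_le.2 hrm)) (Q := range y)
    (R := range fun s => p (x s)) ?_ ?_ (range_nonempty _) ?_ ?_
  · rintro _ ⟨s, rfl⟩
    have := h3 (T (encode s)) (Denumerable.ofNat (List ℕ) (encode s))
    rw [← hs, Denumerable.ofNat_encode] at this
    exact this.trans (hE.mono _ _ (Or.inr isClosed_closure.isOpen_compl) (Or.inr hA)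
      (compl_subset_compl.2 (closure_mono (hx (encode s + 1)))) (y s))
  · rintro _ ⟨s, rfl⟩
    exact (hE.mono _ _ (Or.inr hA) (Or.inr isOpen_compl_singleton) (compl_subset_compl.2
      (singleton_subset_iff.2 (subset_closure ⟨s, rfl⟩))) _).trans (hE.lo _ (Sch.xz _ s))
  · rintro _ ⟨s, rfl⟩
    refine mem_closure_of_near fun n => ⟨2 * n + 1, by omega, _, ⟨(2 * n + 1) :: s, rfl⟩, ?_⟩
    have := (hnear s (2 * n + 1)).2
    rwa [if_pos (odd_two_mul_add_one n)] at this
  · rintro _ ⟨s, rfl⟩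
    refine mem_closure_of_near fun n => ⟨2 * n, by omega, _, ⟨(2 * n) :: s, rfl⟩, ?_⟩
    have := (hnear s (2 * n)).1
    rwa [if_neg (by simp)] at this

theorem failure (hE : Mon E p Z r q) (hmq : m < q) (T : Sch p Z) (s : List ℕ)
    (h : ∀ T' : Sch p Z, (∀ t, encode t < encode s → T'.x t = T.x t ∧ T'.y t = T.y t) →
      range T'.x ⊆ range T.x → E (closure (range T'.x))ᶜ (T'.y s) ≤ m) : False := by
  let B := closure ((fun v => T.x (alt s v)) '' {v | ¬ Even v.length})
  have hB : IsClosed B := isClosed_closure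
  refine baire_contra (gd_le (hE.b1 _ (Or.inl hB)) m) (gd_ge (hE.b1 _ (Or.inl hB)) q)
    (disjoint_left.2 fun z a b => absurd (le_trans b a) (not_le.2 hmq))
    (Q := (fun v => T.y (alt s v)) '' {v | Even v.length})
    (R := (fun v => p (T.x (alt s v))) '' {v | ¬ Even v.length}) ?_ ?_
    ⟨_, [], by simp, rfl⟩ ?_ ?_
  · rintro _ ⟨v, hv, rfl⟩
    obtain ⟨u, hu⟩ : ∃ u, u = alt s v := ⟨_, rfl⟩
    have hsu : s <:+ u := hu ▸ alt_suffix s v
    have h1 := h (T.comp (mv s u) (fun t i => if t = s then jj i else i) (mv_step hsu)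
      (fun t i => by split_ifs; exacts [jj_ge i, le_rfl])
      (fun t i => by split_ifs; exacts [jj_odd i, Iff.rfl])
      (fun t => by
        by_cases c : t = s
        · simp only [if_pos c]; exact jj_inj
        · simp only [if_neg c]; exact fun _ _ e => e))
      (fun t ht => by
        have e := mv_out s u (t := t) fun c => absurd (enc_le c) (not_le.2 ht)
        exact ⟨congrArg T.x e, congrArg T.y e⟩)
      (by rintro _ ⟨t, rfl⟩; exact ⟨_, rfl⟩)
    change E (closure (range fun t => T.x (mv s u t)))ᶜ (T.y (mv s u s)) ≤ m at h1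
    rw [mv_self] at h1
    change E B (T.y (alt s v)) ≤ m
    rw [← hu]
    refine (hE.mono _ _ (Or.inl hB) (Or.inr isClosed_closure.isOpen_compl) ?_ _).trans h1
    have c1 : IsClosed ((T.U s)ᶜ ∪ (T.C u \ ⋃ i, T.U ((4 * i + 1) :: u))) :=
      (T.op s).isClosed_compl.union ((T.cl u).sdiff (isOpen_iUnion fun i => T.op _))
    have c2 : IsClosed ((T.C s \ T.U u) ∪ ⋃ i, T.C ((4 * i + 1) :: u)) := by
      refine ((T.cl s).sdiff (T.op u)).union (LocallyFinite.isClosed_iUnion
        (((T.lf u).comp_injective (g := fun i => 4 * i + 1) fun a b e => by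
          simpa using e).subset fun i => ?_) fun i => T.cl _)
      simp only [Function.comp]
      rw [if_pos (by rw [Nat.odd_iff]; omega)]
    have s1 : closure (range fun t => T.x (mv s u t)) ⊆
        (T.U s)ᶜ ∪ (T.C u \ ⋃ i, T.U ((4 * i + 1) :: u)) := by
      refine closure_minimal ?_ c1
      rintro _ ⟨t, rfl⟩
      by_cases c : s <:+ t
      · refine Or.inr ?_
        rcases mv_in u c with e | ⟨j, e⟩
        · simp only [e, mv_self]
          exact ⟨T.xc u, fun hh => by
            obtain ⟨i, hi⟩ := mem_iUnion.1 hh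
            exact T.xu u _ hi⟩
        · refine ⟨T.mem_C ((List.suffix_cons _ _).trans e), fun hh => ?_⟩
          obtain ⟨i, hi⟩ := mem_iUnion.1 hh
          exact disjoint_left.1 (T.dis u _ _ (jj_ne j i)) (T.cu _ (T.mem_C e)) hi
      · refine Or.inl fun hh => c ?_
        simp only [mv_out s u c] at hh
        exact T.suffix_of_mem hh
    have s2 : B ⊆ (T.C s \ T.U u) ∪ ⋃ i, T.C ((4 * i + 1) :: u) := by
      refine closure_minimal ?_ c2
      rintro _ ⟨w, hw, rfl⟩
      by_cases c : u <:+ alt s w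
      · rw [hu] at c ⊢
        rcases alt_above hv c with ⟨-, e⟩ | ⟨i, e⟩
        · exact absurd (e ▸ hv) hw
        · exact Or.inr (mem_iUnion.2 ⟨i, T.mem_C e⟩)
      · exact Or.inl ⟨T.mem_C (alt_suffix s w), fun hh => c (T.suffix_of_mem hh)⟩
    intro z hz hz'
    rcases s2 hz with a | a <;> rcases s1 hz' with b | b
    · exact b (T.cu s a.1)
    · exact a.2 (T.cu u b.1)
    · obtain ⟨i, hi⟩ := mem_iUnion.1 a
      exact b (T.cu s ((T.nest (hsu.trans (List.suffix_cons _ _))).1 hi))
    · obtain ⟨i, hi⟩ := mem_iUnion.1 a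
      exact b.2 (mem_iUnion.2 ⟨i, T.cu _ hi⟩)
  · rintro _ ⟨v, hv, rfl⟩
    exact (hE.hi _ (T.xz _)).trans (hE.mono _ _ (Or.inl isClosed_singleton) (Or.inl hB)
      (singleton_subset_iff.2 (subset_closure ⟨v, hv, rfl⟩)) _)
  · rintro _ ⟨v, hv, rfl⟩
    have hv' : Even v.length := hv
    refine mem_closure_of_near fun n => ⟨4 * n + 1, by omega, _, ⟨n :: v, ?_, rfl⟩, ?_⟩
    · exact fun c => Nat.even_add_one.1 c hv'
    · have := (T.near (alt s v) (4 * n + 1)).2
      rw [if_pos (by rw [Nat.odd_iff]; omega)] at this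
      simpa only [alt, if_pos hv'] using this
  · rintro _ ⟨v, hv, rfl⟩
    have hv' : ¬ Even v.length := hv
    refine mem_closure_of_near fun n => ⟨2 * n, by omega, _, ⟨n :: v, ?_, rfl⟩, ?_⟩
    · exact Nat.even_add_one.2 hv'
    · have := (T.near (alt s v) (2 * n)).1
      rw [if_neg (by simp)] at this
      simpa only [alt, if_neg hv'] using this

theorem core [SecondCountableTopology X] [SecondCountableTopology Y] [CompleteSpace X]
    [SigmaCompactSpace Y] (hX : ¬ SigmaCompactSpace X) (E : Set X → Y → ℝ)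
    (b1 : ∀ A, IsClosed A ∨ IsOpen A → B1 (E A))
    (mono : ∀ A A', IsClosed A ∨ IsOpen A → IsClosed A' ∨ IsOpen A' → A ⊆ A' → E A ≤ E A')
    (hr : ∀ x, ¬ E {x} ≤ E {x}ᶜ) : False := by
  have h1 : ∀ x, ∃ y, ∃ a : ℚ × ℚ × ℕ, E {x}ᶜ y < a.1 ∧ (a.1 : ℝ) < a.2.1 ∧
      (a.2.1 : ℝ) < E {x} y ∧ y ∈ compactCovering Y a.2.2 := by
    intro x
    obtain ⟨y, hy⟩ := not_forall.1 (hr x)
    obtain ⟨a, a1, a2⟩ := exists_rat_btwn (not_le.1 hy)
    obtain ⟨b, b1, b2⟩ := exists_rat_btwn a2
    obtain ⟨n, hn⟩ := exists_mem_compactCovering y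
    exact ⟨y, (a, b, n), a1, b1, b2, hn⟩
  choose p a h1 h2 h3 h4 using h1
  have h5 : ∃ c, ¬ Small {x | a x = c} := by
    by_contra hn
    push Not at hn
    exact not_small_univ hX ((small_iUnion hn).mono fun x _ => mem_iUnion.2 ⟨a x, rfl⟩)
  obtain ⟨c, hc⟩ := h5
  obtain ⟨T0, -⟩ := exists_sch p (isCompact_compactCovering Y c.2.2) (Z := {x | a x = c})
    (fun x hx => by rw [← show a x = c from hx]; exact h4 x) hc
  have hE : Mon E p {x | a x = c} c.1 c.2.1 := ⟨b1, mono,
    fun x hx => by rw [← show a x = c from hx]; exact (h1 x).le,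
    fun x hx => by rw [← show a x = c from hx]; exact (h3 x).le⟩
  have hlt : (c.1 : ℝ) < c.2.1 := by
    rw [← show a (T0.x []) = c from T0.xz []]; exact h2 _
  refine fusion hE (m := (c.1 + c.2.1) / 2) (by linarith) T0 fun T s => ?_
  by_contra hn
  exact failure hE (m := (c.1 + c.2.1) / 2) (by linarith) T s fun T' a b =>
    (not_le.1 fun e => hn ⟨T', a, b, e⟩).le

end Pool.Agent.Lib.MP_9ddde4_lc.Cl
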