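import Pool.Agent.Lib.MP_9ddde4_lc.Main

set_option autoImplicit false
open Filter Topology Set

namespace Pool.Agent.Lib.MP_9ddde4_lc

/-- projection onto the unit interval -/
noncomputable def clamp (r : ℝ) : ℝ := max 0 (min 1 r)

theorem clamp_mem (r : ℝ) : clamp r ∈ Icc (0 : ℝ) 1 :=
  ⟨le_max_left _ _, max_le zero_le_one (min_le_left _ _)⟩

theorem clamp_mono : Monotone clamp := fun _ _ h => max_le_max le_rfl (min_le_min le_rfl h)

theorem clamp_lip (r s : ℝ) : |clamp r - clamp s| ≤ |r - s| := by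
  unfold clamp
  rw [max_comm 0, max_comm 0]
  refine (abs_max_sub_max_le_abs _ _ _).trans ?_
  refine (abs_min_sub_min_le_max _ _ _ _).trans ?_
  simp

variable {T : Type*} [TopologicalSpace T] [PolishSpace T]

/-- clamp and extend by zero -/
noncomputable def ext (e : Xx → T) (u : Xx → ℝ) : T → ℝ :=
  Function.extend e (fun x => clamp (u x)) fun _ => 0

omit [TopologicalSpace T] [PolishSpace T] in
theorem ext_in {e : Xx → T} (he : Function.Injective e) (u : Xx → ℝ) (x : Xx) :
    ext e u (e x) = clamp (u x) := he.extend_apply _ _ _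

omit [TopologicalSpace T] [PolishSpace T] in
theorem ext_out {e : Xx → T} (u : Xx → ℝ) {z : T} (hz : z ∉ range e) : ext e u z = 0 :=
  Function.extend_apply' _ _ _ hz

omit [TopologicalSpace T] [PolishSpace T] in
theorem ext_mem {e : Xx → T} (he : Function.Injective e) (u : Xx → ℝ) (z : T) :
    ext e u z ∈ Icc (0 : ℝ) 1 := by
  by_cases hz : z ∈ range e
  · obtain ⟨x, rfl⟩ := hz
    rw [ext_in he]; exact clamp_mem _
  · rw [ext_out u hz]; exact ⟨le_rfl, zero_le_one⟩

omit [TopologicalSpace T] [PolishSpace T] in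
theorem ext_mono {e : Xx → T} (he : Function.Injective e) {u v : Xx → ℝ} (h : u ≤ v) :
    ext e u ≤ ext e v := by
  intro z
  by_cases hz : z ∈ range e
  · obtain ⟨x, rfl⟩ := hz
    rw [ext_in he, ext_in he]; exact clamp_mono (h x)
  · rw [ext_out u hz, ext_out v hz]

theorem ext_pc {e : Xx → T} (he : IsClosedEmbedding e) {u : Xx → ℝ} (hu : PC u) :
    PC (ext e u) := by
  constructor
  · refine ((hu.1.image clamp).union (countable_singleton 0)).mono ?_
    rintro _ ⟨z, rfl⟩
    by_cases hz : z ∈ range e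
    · obtain ⟨x, rfl⟩ := hz
      exact Or.inl ⟨u x, ⟨x, rfl⟩, (ext_in he.injective u x).symm⟩
    · exact Or.inr (ext_out u hz)
  · intro r
    have : {z | ext e u z = r} = e '' {x | clamp (u x) = r} ∪ ((range e)ᶜ ∩ {_z | 0 = r}) := by
      ext z
      by_cases hz : z ∈ range e
      · obtain ⟨x, rfl⟩ := hz
        simp [ext_in he.injective, he.injective.eq_iff]
      · have : z ∉ e '' {x | clamp (u x) = r} := fun h => hz (image_subset_range _ _ h)
        simp only [mem_ofPred_eq, ext_out u hz, mem_union, this, false_or, mem_inter_iff,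
          mem_compl_iff, hz, not_false_eq_true, true_and]
    rw [this]
    exact ((hu.fs_rel hu fun a _ => clamp a = r).image he.isClosedMap).union
      ((Fs.of_open he.isClosed_range.isOpen_compl).inter (Fs.of_closed isClosed_const))

theorem ext_b1 {e : Xx → T} (he : IsClosedEmbedding e) {u : Xx → ℝ} (hu : UL u) :
    B1 (ext e u) := by
  obtain ⟨v, hv, hd⟩ := hu
  refine B1.of_unif (v := fun d => ext e (v d)) (fun d => (ext_pc he (hv d)).b1) fun d z => ?_
  by_cases hz : z ∈ range e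
  · obtain ⟨x, rfl⟩ := hz
    rw [ext_in he.injective, ext_in he.injective]
    exact (clamp_lip _ _).trans (hd d x)
  · rw [ext_out _ hz, ext_out _ hz]; simp

theorem exists_emb [Uncountable T] : ∃ e : Xx → T, IsClosedEmbedding e := by
  obtain ⟨c, -, hc, hi⟩ :=
    (isClosed_univ (X := T)).exists_nat_bool_injection_of_not_countable not_countable_univ
  let q : Xx → ℕ → Bool := fun x n => x n.unpair.1 n.unpair.2
  have hq : Continuous q := continuous_pi fun n => (continuous_apply _).comp (continuous_apply _)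
  have hqi : Function.Injective q := fun x y h => by
    funext a b
    simpa [q] using congrFun h (Nat.pair a b)
  exact ⟨c ∘ q, (hc.comp hq).isClosedEmbedding (hi.comp hqi)⟩

theorem top [Uncountable T] {Y : Type*} [TopologicalSpace Y] [PolishSpace Y]
    (Φ : (T → ℝ) → Set Y)
    (hamb : ∀ f, B1 f → (∀ x, f x ∈ Icc (0 : ℝ) 1) → IsGδ (Φ f) ∧ IsGδ (Φ f)ᶜ)
    (hmono : ∀ f g, B1 f → (∀ x, f x ∈ Icc (0 : ℝ) 1) → B1 g → (∀ x, g x ∈ Icc (0 : ℝ) 1) →
      f < g → Φ g ⊆ Φ f) :
    ∃ f f' g, B1 f ∧ (∀ x, f x ∈ Icc (0 : ℝ) 1) ∧ B1 f' ∧ (∀ x, f' x ∈ Icc (0 : ℝ) 1) ∧ B1 g ∧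
      (∀ x, g x ∈ Icc (0 : ℝ) 1) ∧ f < f' ∧ ¬ f ≤ g ∧ Φ g ⊆ Φ f' := by
  obtain ⟨e, he⟩ := exists_emb (T := T)
  have hi := he.injective
  have hΨ : Ctx fun u => (Φ (ext e u))ᶜ := by
    refine ⟨fun u hu => ?_, fun u v hu hv huv => compl_subset_compl.2 ?_⟩
    · have := hamb _ (ext_b1 he hu) (ext_mem hi u)
      rw [compl_compl]; exact this.symm
    · rcases (ext_mono hi huv).eq_or_lt with h | h
      · rw [h]
      · exact hmono _ _ (ext_b1 he hu) (ext_mem hi u) (ext_b1 he hv) (ext_mem hi v) h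
  have pc : ∀ (x : Xx) (r s : ℝ), PC (pw {x} (fun _ => r) fun _ => s) := fun x r s =>
    PC.pw_closed isClosed_singleton (PC.const _) (PC.const _)
  have c0 : clamp 0 = 0 := by simp [clamp]
  have c1 : clamp 1 = 1 := by simp [clamp]
  have c2 : clamp (1 / 2) = 1 / 2 := by norm_num [clamp]
  by_contra hc
  have hp : ∀ x : Xx, ∃ y, y ∈ Φ (ext e (pw {x} (fun _ => 0) fun _ => 1)) ∧
      y ∉ Φ (ext e (pw {x} (fun _ => 1) fun _ => 0)) := by
    intro x
    by_contra h
    push Not at h
    refine hc ⟨ext e (pw {x} (fun _ => 1 / 2) fun _ => 0), _, _, ext_b1 he (pc x _ _).ul,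
      ext_mem hi _, ext_b1 he (pc x _ _).ul, ext_mem hi _, ext_b1 he (pc x _ _).ul, ext_mem hi _,
      lt_of_le_of_ne (ext_mono hi fun z => ?_) fun h' => ?_, fun h' => ?_, h⟩
    · by_cases c : z ∈ ({x} : Set Xx)
      · rw [pw_in c, pw_in c]; norm_num
      · rw [pw_out c, pw_out c]
    · have := congrFun h' (e x)
      rw [ext_in hi, ext_in hi, pw_in (mem_singleton x), pw_in (mem_singleton x), c1, c2] at this
      norm_num at this
    · have := h' (e x)
      rw [ext_in hi, ext_in hi, pw_in (mem_singleton x), pw_in (mem_singleton x), c0, c2] at this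
      norm_num at this
  choose p hp1 hp2 using hp
  refine core (p := p) hΨ (fun x k => ?_) fun x k hx => ?_
  · refine hΨ.mono _ _ (pc x 1 0).ul (pc_cyl x k (PC.const _) (PC.const _)).ul (fun z => ?_)
      (hp2 x)
    by_cases c : z ∈ ({x} : Set Xx)
    · rw [pw_in c, pw_in (by rw [mem_singleton_iff.1 c]; exact mem_cyl_self x k)]
    · rw [pw_out c]
      by_cases c' : z ∈ cyl x k
      · rw [pw_in c']; exact zero_le_one
      · rw [pw_out c']
  · refine hΨ.mono _ _ (pc_cyl x k (PC.const _) (PC.const _)).ul (pc x 0 1).ul (fun z => ?_) hx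
      (hp1 x)
    by_cases c : z ∈ ({x} : Set Xx)
    · rw [pw_in c, pw_in (by rw [mem_singleton_iff.1 c]; exact mem_cyl_self x k)]
    · rw [pw_out c]
      by_cases c' : z ∈ cyl x k
      · rw [pw_in c']; exact zero_le_one
      · rw [pw_out c']

end Pool.Agent.Lib.MP_9ddde4_lc
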