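import Pool.Agent.Lib.MP_9ddde4_lc.ClB
import Pool.Agent.Lib.MP_9ddde4_lc.Top

/-! Order embeddings between posets of Baire class 1 functions. -/

set_option autoImplicit false
open Filter Topology Set Metric

namespace Pool.Agent.Lib.MP_9ddde4_lc.Cl

/-- odd children of growing index -/
def deep : List ℕ → List ℕ
  | [] => []
  | i :: s => (2 * (i + s.length) + 1) :: deep s

/-- Hurewicz: a closed copy of the Baire space. -/
theorem hurewicz {X : Type*} [MetricSpace X] [SecondCountableTopology X] [CompleteSpace X]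
    (hX : ¬ SigmaCompactSpace X) : ∃ e : (ℕ → ℕ) → X, IsClosedEmbedding e := by
  obtain ⟨T, hT⟩ := exists_sch (fun _ : X => (0 : ℝ)) (Z := univ) isCompact_singleton
    (fun _ _ => rfl) (not_small_univ hX)
  let A : List ℕ → Set X := fun s => T.C (deep s)
  have h1 : CantorScheme.Antitone A := fun l a => (T.cu _).trans (T.uc _ _)
  have h2 : CantorScheme.Disjoint A := fun l a b hab =>
    (T.dis (deep l) (2 * (a + l.length) + 1) (2 * (b + l.length) + 1) (by omega)).mono
      (T.cu _) (T.cu _)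
  have h3 : CantorScheme.VanishingDiam A := by
    intro z
    rw [← tendsto_add_atTop_iff_nat 1]
    have h4 : Tendsto (fun n : ℕ => ENNReal.ofReal (2 * (1 / ((n : ℝ) + 1)))) atTop (𝓝 0) := by
      have := ENNReal.tendsto_ofReal
        ((tendsto_one_div_add_atTop_nhds_zero_nat (𝕜 := ℝ)).const_mul 2)
      simpa using this
    refine tendsto_of_tendsto_of_tendsto_of_le_of_le tendsto_const_nhds h4 (fun _ => zero_le)
      fun n => Metric.ediam_le_of_forall_dist_le fun a ha b hb => ?_
    obtain ⟨w, hw⟩ := hT (deep (PiNat.res z n)) (2 * (z n + (PiNat.res z n).length) + 1)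
    have h5 : (1 : ℝ) / ((2 * (z n + (PiNat.res z n).length) + 1 : ℕ) + 1) ≤ 1 / (n + 1) :=
      Nat.one_div_le_one_div (by rw [PiNat.res_length]; omega)
    have h6 := dist_triangle_right a b w
    linarith [mem_closedBall.1 (hw ha), mem_closedBall.1 (hw hb)]
  have h4 := (h1.closureAntitone fun l => T.cl _).map_of_vanishingDiam h3 fun l => ⟨_, T.xc _⟩
  have h5 : ∀ z, z ∈ (CantorScheme.inducedMap A).1 := fun z => by rw [h4]; trivial
  have hc : Continuous fun z => (CantorScheme.inducedMap A).2 ⟨z, h5 z⟩ :=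
    h3.map_continuous.comp (continuous_id.subtype_mk _)
  refine ⟨_, .of_continuous_injective_isClosedMap hc
    (fun a b e => congrArg Subtype.val (h2.map_injective e))
    (isProperMap_iff_ultrafilter_of_t2.2 ⟨hc, fun 𝒰 a ha => ?_⟩).isClosedMap⟩
  have h6 : ∀ n s, {z | PiNat.res z n = s} ∈ 𝒰 → ∃ i, {z : ℕ → ℕ | z n = i} ∈ 𝒰 := by
    intro n s hs
    obtain ⟨N, hN, hf⟩ := T.lf (deep s) a
    have h7 := hf.preimage (f := fun i => 2 * (i + s.length) + 1)
      fun a _ b _ e => by simpa using e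
    obtain ⟨i, -, hi⟩ := (Ultrafilter.finite_biUnion_mem_iff (f := 𝒰)
      (s := fun i => {z : ℕ → ℕ | z n = i}) h7).1 (by
        filter_upwards [hs, ha hN] with z h8 h9
        refine mem_iUnion₂.2 ⟨z n, ⟨_, ?_, h9⟩, rfl⟩
        rw [if_pos (odd_two_mul_add_one _), ← show PiNat.res z n = s from h8]
        exact CantorScheme.map_mem (A := A) ⟨z, h5 z⟩ (n + 1))
    exact ⟨i, hi⟩
  have h7 : ∀ n, ∃ s, {z | PiNat.res z n = s} ∈ 𝒰 := by
    intro n
    induction n with
    | zero => exact ⟨[], univ_mem' fun _ => rfl⟩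
    | succ n ih =>
      obtain ⟨s, hs⟩ := ih
      obtain ⟨i, hi⟩ := h6 n s hs
      refine ⟨i :: s, ?_⟩
      filter_upwards [hs, hi] with z h8 h9
      rw [PiNat.res_succ, h8, h9]
  choose z hz using fun n => h6 n _ (h7 n).choose_spec
  exact ⟨z, (tendsto_pi_nhds (f := id)).2 fun n => tendsto_nhds_of_eventually_eq (hz n)⟩

/-- Baire class 1 with values in `L` -/
def BI {T : Type*} [TopologicalSpace T] (L : Set ℝ) (f : T → ℝ) : Prop := B1 f ∧ ∀ x, f x ∈ L

/-- there is an order embedding -/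
def Emb (X : Type*) [TopologicalSpace X] (L : Set ℝ) (Y : Type*) [TopologicalSpace Y]
    (M : Set ℝ) : Prop :=
  ∃ Φ : (X → ℝ) → Y → ℝ, (∀ f, BI L f → BI M (Φ f)) ∧
    ∀ f g, BI L f → BI L g → (Φ f ≤ Φ g ↔ f ≤ g)

variable {X Y W : Type*} [TopologicalSpace X] [TopologicalSpace Y] [TopologicalSpace W]
  {L M N : Set ℝ}

theorem Emb.trans (h1 : Emb X L Y M) (h2 : Emb Y M W N) : Emb X L W N := by
  obtain ⟨Φ, a1, a2⟩ := h1
  obtain ⟨Ψ, b1, b2⟩ := h2
  exact ⟨fun f => Ψ (Φ f), fun f hf => b1 _ (a1 f hf),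
    fun f g hf hg => (b2 _ _ (a1 f hf) (a1 g hg)).trans (a2 f g hf hg)⟩

theorem emb_val {φ : ℝ → ℝ} (hc : Continuous φ) (hm : StrictMono φ) (h : MapsTo φ L M) :
    Emb X L X M := by
  refine ⟨fun f x => φ (f x), fun f ⟨⟨u, h1, h2⟩, h3⟩ => ⟨⟨fun n x => φ (u n x),
    fun n => hc.comp (h1 n), fun x => (hc.tendsto _).comp (h2 x)⟩, fun x => h (h3 x)⟩,
    fun f g _ _ => forall_congr' fun x => hm.le_iff_le⟩

theorem emb_aff {a b : ℝ} (hb : 0 < b) (h : ∀ t ∈ L, a + b * t ∈ M) : Emb X L X M :=
  emb_val (φ := fun t => a + b * t) (by fun_prop)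
    (fun s t hst => by dsimp only; nlinarith) h

theorem emb_two (hM : M.Nontrivial) : Emb X {0, 1} X M := by
  obtain ⟨a, ha, b, hb, hab⟩ := hM.exists_lt
  refine emb_aff (a := a) (sub_pos.2 hab) ?_
  rintro t (rfl | rfl)
  · simpa using ha
  · simpa using hb

theorem emb_fat (hM : (interior M).Nonempty) : Emb X L X M := by
  obtain ⟨c, hc⟩ := hM
  obtain ⟨δ, hδ, h⟩ := Metric.mem_nhds_iff.1 (mem_interior_iff_mem_nhds.1 hc)
  refine emb_val (φ := fun t => c + δ / 2 * Real.arctan t)
    (continuous_const.add (continuous_const.mul Real.continuous_arctan))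
    (fun s t hst => by dsimp only; nlinarith [Real.arctan_strictMono hst]) fun t _ => h ?_
  rw [mem_ball, Real.dist_eq, add_sub_cancel_left, abs_lt]
  have h1 := Real.arctan_lt_pi_div_two t
  have h2 := Real.neg_pi_div_two_lt_arctan t
  have h3 := Real.pi_le_four
  constructor <;> nlinarith

theorem emb_surj {π : Y → X} (hc : Continuous π) (hs : Function.Surjective π) : Emb X L Y L :=
  ⟨fun f y => f (π y), fun _ ⟨⟨u, h1, h2⟩, h3⟩ => ⟨⟨fun n y => u n (π y),
    fun n => (h1 n).comp hc, fun y => h2 (π y)⟩, fun y => h3 (π y)⟩,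
    fun _ _ _ _ => ⟨fun h x => by obtain ⟨y, rfl⟩ := hs x; exact h y, fun h y => h (π y)⟩⟩

theorem emb_closed {V : Type*} [MetricSpace V] [Nonempty X] {e : X → V}
    (he : IsClosedEmbedding e) (hL : L.Nonempty) : Emb X L V L := by
  obtain ⟨c, hc⟩ := hL
  have hi := he.injective
  refine ⟨fun f => Function.extend e f fun _ => c, fun f ⟨⟨u, h1, h2⟩, h3⟩ => ⟨?_, fun y => ?_⟩,
    fun f g _ _ => ⟨fun h x => ?_, fun h y => ?_⟩⟩
  · choose g hg using fun n => ContinuousMap.exists_extension he (⟨u n, h1 n⟩ : C(X, ℝ))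
    refine ⟨fun n y => c + (g n y - c) * max 0 (1 - n * infDist y (range e)), fun n => ?_,
      fun y => ?_⟩
    · exact continuous_const.add (((g n).continuous.sub continuous_const).mul
        (continuous_const.max (continuous_const.sub
          (continuous_const.mul (continuous_infDist_pt _)))))
    · beta_reduce
      by_cases hy : y ∈ range e
      · obtain ⟨x, rfl⟩ := hy
        rw [hi.extend_apply, infDist_zero_of_mem (mem_range_self x)]
        refine (h2 x).congr fun n => ?_
        have : g n (e x) = u n x := congrArg (fun φ : C(X, ℝ) => φ x) (hg n)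
        simp [this]
      · rw [Function.extend_apply' _ _ _ hy]
        have h4 := (he.isClosed_range.notMem_iff_infDist_pos (range_nonempty e)).1 hy
        refine tendsto_nhds_of_eventually_eq ?_
        filter_upwards [(tendsto_natCast_atTop_atTop.atTop_mul_const h4).eventually_ge_atTop 1]
          with n hn
        rw [max_eq_left (by linarith), mul_zero, add_zero]
  · beta_reduce
    by_cases hy : y ∈ range e
    · obtain ⟨x, rfl⟩ := hy
      rw [hi.extend_apply]; exact h3 x
    · rw [Function.extend_apply' _ _ _ hy]; exact hc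
  · have := h (e x)
    beta_reduce at this
    rwa [hi.extend_apply, hi.extend_apply] at this
  · beta_reduce
    by_cases hy : y ∈ range e
    · obtain ⟨x, rfl⟩ := hy
      rw [hi.extend_apply, hi.extend_apply]; exact h x
    · rw [Function.extend_apply' _ _ _ hy, Function.extend_apply' _ _ _ hy]

theorem emb_thin (hL : interior L = ∅) : Emb X L (X × ℕ) {0, 1} := by
  classical
  obtain ⟨D, h1, h2, h3⟩ :=
    (interior_eq_empty_iff_dense_compl.1 hL).exists_countable_dense_subset
  obtain ⟨t, rfl⟩ := h2.exists_eq_range h3.nonempty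
  refine ⟨fun f w => if t w.2 < f w.1 then 1 else 0,
    fun f ⟨⟨u, a1, a2⟩, a3⟩ => ⟨⟨fun n w => clamp (n * (u n w.1 - t w.2)), fun n => ?_,
      fun w => ?_⟩, fun w => ?_⟩, fun f g _ _ => ⟨fun h x => ?_, fun h w => ?_⟩⟩
  · exact continuous_const.max (continuous_const.min (continuous_const.mul
      (((a1 n).comp continuous_fst).sub
        ((continuous_of_discreteTopology (f := t)).comp continuous_snd))))
  · refine tendsto_nhds_of_eventually_eq ?_
    by_cases c : t w.2 < f w.1
    · filter_upwards [(tendsto_natCast_atTop_atTop.atTop_mul_pos (sub_pos.2 c)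
        ((a2 w.1).sub_const (t w.2))).eventually_ge_atTop 1] with n hn
      rw [if_pos c, clamp, min_eq_left hn, max_eq_right zero_le_one]
    · have c' : f w.1 < t w.2 := lt_of_le_of_ne (not_lt.1 c)
        fun e => h1 ⟨w.2, rfl⟩ (e ▸ a3 w.1)
      filter_upwards [(a2 w.1).eventually_lt_const c'] with n hn
      rw [if_neg c, clamp, max_eq_left ((min_le_right _ _).trans
        (mul_nonpos_of_nonneg_of_nonpos (Nat.cast_nonneg n) (by linarith)))]
  · dsimp only
    split_ifs <;> simp
  · by_contra c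
    obtain ⟨_, ⟨n, rfl⟩, c1, c2⟩ := h3.exists_between (not_le.1 c)
    have := h (x, n)
    dsimp only at this
    rw [if_pos c2, if_neg (not_lt.2 c1.le)] at this
    linarith
  · dsimp only
    split_ifs with c1 c2
    · exact le_rfl
    · exact absurd (c1.trans_le (h w.1)) c2
    · exact zero_le_one
    · exact le_rfl

/-- sequences whose first `true` is at place `n` -/
def fst1 (n : ℕ) : Set (ℕ → Bool) := {z | z n = true ∧ ∀ i < n, z i = false}

theorem fst1_clopen (n : ℕ) : IsClopen (fst1 n) := by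
  have h : ∀ (i : ℕ) (b : Bool), IsClopen {z : ℕ → Bool | z i = b} := fun i b =>
    (isClopen_discrete {b}).preimage (continuous_apply i)
  have : fst1 n = {z | z n = true} ∩ ⋂ i ∈ Finset.range n, {z | z i = false} := by
    ext z; simp [fst1]
  rw [this]
  exact (h n true).inter (isClopen_biInter_finset fun i _ => h i false)

theorem fst1_eq {m n : ℕ} {z : ℕ → Bool} (h1 : z ∈ fst1 m) (h2 : z ∈ fst1 n) : m = n := by
  rcases lt_trichotomy m n with c | c | c
  · exact absurd (h1.1.symm.trans (h2.2 m c)) (by simp)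
  · exact c
  · exact absurd (h2.1.symm.trans (h1.2 n c)) (by simp)

theorem emb_cov {π : ℕ → (ℕ → Bool) → X} (hc : ∀ n, Continuous (π n))
    (hs : ∀ x, ∃ n z, π n z = x) (hL : L.Nonempty) : Emb X L (ℕ → Bool) L := by
  classical
  obtain ⟨c, hc'⟩ := hL
  let Φ : (X → ℝ) → (ℕ → Bool) → ℝ := fun f z =>
    if h : ∃ n, z ∈ fst1 n then f (π h.choose fun i => z (i + (h.choose + 1))) else c
  have hin : ∀ f z n, z ∈ fst1 n → Φ f z = f (π n fun i => z (i + (n + 1))) := by
    intro f z n hz
    have h : ∃ n, z ∈ fst1 n := ⟨n, hz⟩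
    simp only [Φ, dif_pos h, fst1_eq h.choose_spec hz]
  have hout : ∀ f z, (¬ ∃ n, z ∈ fst1 n) → Φ f z = c := fun f z h => dif_neg h
  refine ⟨Φ, fun f ⟨⟨u, h1, h2⟩, h3⟩ => ⟨⟨fun k z => c + ∑ n ∈ Finset.range k,
    (fst1 n).indicator (fun z => u k (π n fun i => z (i + (n + 1))) - c) z, fun k => ?_,
    fun z => ?_⟩, fun z => ?_⟩, fun f g _ _ => ⟨fun h x => ?_, fun h z => ?_⟩⟩
  · refine continuous_const.add (continuous_finsetSum _ fun n _ => Continuous.indicator ?_
      (((h1 k).comp ((hc n).comp (continuous_pi fun i => continuous_apply _))).sub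
        continuous_const))
    rw [(fst1_clopen n).frontier_eq]
    exact fun a ha => ha.elim
  · by_cases h : ∃ n, z ∈ fst1 n
    · obtain ⟨n, hn⟩ := h
      rw [hin f z n hn]
      refine (h2 _).congr' ?_
      filter_upwards [eventually_gt_atTop n] with k hk
      rw [Finset.sum_eq_single n (fun m _ hm => indicator_of_notMem
        (fun e => hm (fst1_eq e hn)) _) fun e => absurd (Finset.mem_range.2 hk) e,
        indicator_of_mem hn]
      ring
    · rw [hout f z h]
      refine tendsto_nhds_of_eventually_eq (Eventually.of_forall fun k => ?_)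
      beta_reduce
      rw [Finset.sum_eq_zero fun m _ => indicator_of_notMem (fun e => h ⟨m, e⟩) _, add_zero]
  · by_cases h : ∃ n, z ∈ fst1 n
    · obtain ⟨n, hn⟩ := h
      rw [hin f z n hn]; exact h3 _
    · rw [hout f z h]; exact hc'
  · obtain ⟨n, w, rfl⟩ := hs x
    let z : ℕ → Bool := fun i => if i < n then false else if i = n then true else w (i - (n + 1))
    have hz : z ∈ fst1 n := ⟨by simp [z], fun i hi => if_pos hi⟩
    have e : (fun i => z (i + (n + 1))) = w := by
      funext i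
      simp only [z]
      rw [if_neg (by omega), if_neg (by omega), Nat.add_sub_cancel]
    have := h z
    rwa [hin f z n hz, hin g z n hz, e] at this
  · by_cases h' : ∃ n, z ∈ fst1 n
    · obtain ⟨n, hn⟩ := h'
      rw [hin f z n hn, hin g z n hn]; exact h _
    · rw [hout f z h', hout g z h']

/-- change of the space -/
theorem emb_space [PolishSpace X] [Nonempty X] [PolishSpace Y] [Uncountable Y]
    (h : SigmaCompactSpace X ∨ ¬ SigmaCompactSpace Y) (hL : L.Nonempty) : Emb X L Y L := by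
  let _ := TopologicalSpace.upgradeIsCompletelyMetrizable X
  let _ := TopologicalSpace.upgradeIsCompletelyMetrizable Y
  rcases h with h | h
  · obtain ⟨x0⟩ := ‹Nonempty X›
    have h1 : ∀ n, ∃ π : (ℕ → Bool) → X, Continuous π ∧ compactCovering X n ⊆ range π := by
      intro n
      have hK := (isCompact_compactCovering X n).insert x0
      have := isCompact_iff_compactSpace.1 hK
      have : Nonempty (insert x0 (compactCovering X n) : Set X) := ⟨⟨x0, mem_insert _ _⟩⟩
      obtain ⟨f, f1, f2⟩ := exists_nat_bool_continuous_surjective_of_compact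
        (insert x0 (compactCovering X n) : Set X)
      refine ⟨fun z => f z, continuous_subtype_val.comp f1, fun x hx => ?_⟩
      obtain ⟨z, hz⟩ := f2 ⟨x, mem_insert_of_mem _ hx⟩
      exact ⟨z, congrArg Subtype.val hz⟩
    choose π h2 h3 using h1
    obtain ⟨e, -, e1, e2⟩ :=
      (isClosed_univ (X := Y)).exists_nat_bool_injection_of_not_countable not_countable_univ
    refine (emb_cov h2 (fun x => ?_) hL).trans (emb_closed (e1.isClosedEmbedding e2) hL)
    obtain ⟨n, hn⟩ := exists_mem_compactCovering x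
    exact ⟨n, h3 n hn⟩
  · obtain ⟨π, h1, h2⟩ := PolishSpace.exists_nat_nat_continuous_surjective X
    obtain ⟨e, he⟩ := hurewicz h
    exact (emb_surj h1 h2).trans (emb_closed he hL)

theorem not_emb_val [PolishSpace X] [Uncountable X] [PolishSpace Y] :
    ¬ Emb X (Icc 0 1) Y {0, 1} := by
  rintro ⟨Φ, h1, h2⟩
  obtain ⟨f, f', g, a1, a2, a3, a4, a5, a6, a7, a8, a9⟩ := top (fun f : X → ℝ => {y | Φ f y ≤ 0})
    (fun f a b => ⟨gd_le (h1 f ⟨a, b⟩).1 0, by
      have : {y | Φ f y ≤ 0}ᶜ = {y | 1 ≤ Φ f y} := by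
        ext y
        rcases (h1 f ⟨a, b⟩).2 y with e | e
        · simp [e]
        · simp [show Φ f y = 1 from e]
      rw [this]
      exact gd_ge (h1 f ⟨a, b⟩).1 1⟩)
    fun f g a b c d e y hy => ((h2 f g ⟨a, b⟩ ⟨c, d⟩).2 e.le y).trans hy
  refine a8 (a7.le.trans ((h2 f' g ⟨a3, a4⟩ ⟨a5, a6⟩).1 fun y => ?_))
  rcases (h1 g ⟨a5, a6⟩).2 y with e | e
  · rw [e]; exact a9 e.le
  · rw [show Φ g y = 1 from e]
    rcases (h1 f' ⟨a3, a4⟩).2 y with e' | e'
    · rw [e']; exact zero_le_one
    · exact le_of_eq e'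

theorem bi_pw {A : Set X} [NormalSpace X] (h1 : Fs A) (h2 : Fs Aᶜ) :
    BI {0, 1} (pw A (fun _ => 1) fun _ => 0) := by
  refine ⟨PC.b1 (PC.pw h1 h2 (PC.const _) (PC.const _)), fun x => ?_⟩
  by_cases c : x ∈ A
  · rw [pw_in c]; simp
  · rw [pw_out c]; simp

omit [TopologicalSpace X] in
theorem pw_le {A A' : Set X} :
    pw A (fun _ => (1 : ℝ)) (fun _ => 0) ≤ pw A' (fun _ => 1) (fun _ => 0) ↔ A ⊆ A' := by
  refine ⟨fun h x c => ?_, fun h x => ?_⟩
  · by_contra c'
    have := h x
    rw [pw_in c, pw_out c'] at this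
    linarith
  · by_cases c : x ∈ A
    · rw [pw_in c, pw_in (h c)]
    · rw [pw_out c]
      by_cases c' : x ∈ A'
      · rw [pw_in c']; exact zero_le_one
      · rw [pw_out c']

theorem emb_sets [PolishSpace X] (h : Emb X {0, 1} Y M) : ∃ E : Set X → Y → ℝ,
    (∀ A, IsClosed A ∨ IsOpen A → B1 (E A)) ∧
    (∀ A A', IsClosed A ∨ IsOpen A → IsClosed A' ∨ IsOpen A' → A ⊆ A' → E A ≤ E A') ∧
    ∀ x, ¬ E {x} ≤ E {x}ᶜ := by
  obtain ⟨Φ, h1, h2⟩ := h
  have h3 : ∀ A : Set X, IsClosed A ∨ IsOpen A →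
      BI {0, 1} (pw A (fun _ => 1) fun _ => 0) := by
    rintro A (h | h)
    · exact bi_pw (Fs.of_closed h) (Fs.of_open h.isOpen_compl)
    · exact bi_pw (Fs.of_open h) (Fs.of_closed h.isClosed_compl)
  refine ⟨fun A => Φ (pw A (fun _ => 1) fun _ => 0), fun A hA => (h1 _ (h3 A hA)).1,
    fun A A' hA hA' hs => (h2 _ _ (h3 A hA) (h3 A' hA')).2 (pw_le.2 hs), fun x h => ?_⟩
  exact pw_le.1 ((h2 _ _ (h3 _ (Or.inl isClosed_singleton))
    (h3 _ (Or.inr isOpen_compl_singleton))).1 h) (mem_singleton x) rfl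

theorem not_emb_space [PolishSpace X] [PolishSpace Y] [SigmaCompactSpace Y]
    (hX : ¬ SigmaCompactSpace X) : ¬ Emb X {0, 1} Y M := by
  intro h
  obtain ⟨E, h1, h2, h3⟩ := emb_sets h
  let _ := TopologicalSpace.upgradeIsCompletelyMetrizable X
  let _ := TopologicalSpace.upgradeIsCompletelyMetrizable Y
  exact core hX E h1 h2 h3

theorem emb_inj [PolishSpace X] (h : Emb X {0, 1} Y M) : ∃ w : X → Y, Function.Injective w := by
  obtain ⟨E, -, h2, h3⟩ := emb_sets h
  choose w h4 using fun x => not_forall.1 (h3 x)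
  refine ⟨w, fun x x' e => by_contra fun hne => ?_⟩
  have h5 : ∀ a b : X, a ≠ b → E {a} ≤ E {b}ᶜ := fun a b c =>
    h2 {a} {b}ᶜ (Or.inl isClosed_singleton) (Or.inr isOpen_compl_singleton)
      (singleton_subset_iff.2 c)
  have h6 := h4 x'
  rw [← e] at h6
  exact h4 x ((h5 x x' hne _).trans ((not_le.1 h6).le.trans (h5 x' x (Ne.symm hne) _)))

theorem emb_count [Countable X] [PolishSpace Y] [Infinite Y] : Emb X L Y {0, 1} := by
  obtain ⟨U, h1, h2, h3⟩ := exists_seq_infinite_isOpen_pairwise_disjoint Y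
  choose y hy using fun n => (h1 n).nonempty
  have h4 : ∀ m n, y m ∈ U n → m = n := fun m n h =>
    by_contra fun c => disjoint_left.1 (h3 c) (hy m) h
  obtain ⟨c, hc⟩ := Countable.exists_injective_nat (X × ℚ)
  let A : (X → ℝ) → Set Y := fun f => (fun w => y (c w)) '' {w | (w.2 : ℝ) < f w.1}
  refine ⟨fun f => pw (A f) (fun _ => 1) fun _ => 0, fun f _ => bi_pw ?_ ?_,
    fun f g _ _ => pw_le.trans ⟨fun h x => ?_, fun h => image_mono fun w hw => ?_⟩⟩
  · rw [← biUnion_of_singleton (A f)]
    exact Fs.biUnion ((to_countable _).image _) fun _ _ => Fs.of_closed isClosed_singleton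
  · have : (A f)ᶜ = (⋃ n, U n)ᶜ ∪ ⋃ n, U n \ ({y n} ∩ A f) := by
      ext z
      constructor
      · intro hz
        by_cases c : z ∈ ⋃ n, U n
        · obtain ⟨n, hn⟩ := mem_iUnion.1 c
          exact Or.inr (mem_iUnion.2 ⟨n, hn, fun e => hz e.2⟩)
        · exact Or.inl c
      · rintro (hz | hz) ⟨w, hw, rfl⟩
        · exact hz (mem_iUnion.2 ⟨_, hy _⟩)
        · obtain ⟨n, h5, h6⟩ := mem_iUnion.1 hz
          exact h6 ⟨congrArg y (h4 _ _ h5), w, hw, rfl⟩
    rw [this]
    exact (Fs.of_closed (isOpen_iUnion h2).isClosed_compl).union (Fs.iUnion fun n =>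
      Fs.of_open ((h2 n).sdiff ((finite_singleton _).inter_of_left _).isClosed))
  · refine le_of_forall_rat_lt_imp_le fun q hq => ?_
    obtain ⟨w, hw, e⟩ := h ⟨(x, q), hq, rfl⟩
    have : w = (x, q) := hc (h4 _ _ (by rw [show y (c w) = y (c (x, q)) from e]; exact hy _))
    subst this
    exact le_of_lt hw
  · exact lt_of_lt_of_le hw (h w.1)

theorem classify [PolishSpace X] [Uncountable X] [PolishSpace Y] [Uncountable Y]
    (hL : L.Nontrivial) (hM : M.Nontrivial) :
    Emb X L Y M ↔ (interior L = ∅ ∨ (interior M).Nonempty) ∧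
      (SigmaCompactSpace X ∨ ¬ SigmaCompactSpace Y) := by
  constructor
  · intro h
    constructor
    · by_contra hn
      push Not at hn
      exact not_emb_val (((emb_fat hn.1).trans h).trans (emb_thin hn.2))
    · by_contra hn
      push Not at hn
      have := hn.2
      exact not_emb_space hn.1 ((emb_two hL).trans h)
  · rintro ⟨h1 | h1, h2⟩
    · refine ((emb_thin h1).trans (emb_space ?_ (by simp))).trans (emb_two hM)
      rcases h2 with h2 | h2
      · exact Or.inl inferInstance
      · exact Or.inr h2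
    · exact (emb_fat h1).trans (emb_space h2 hM.nonempty)

theorem classify' [PolishSpace X] [PolishSpace Y] (hXY : Infinite X ∨ Infinite Y)
    (hL : L.Nontrivial) (hM : M.Nontrivial) :
    Emb X L Y M ↔ (Countable X ∧ Infinite Y) ∨
      (Uncountable Y ∧ (interior L = ∅ ∨ (interior M).Nonempty) ∧
        (SigmaCompactSpace X ∨ ¬ SigmaCompactSpace Y)) := by
  constructor
  · intro h
    obtain ⟨w, hw⟩ := emb_inj ((emb_two hL).trans h)
    by_cases hX : Countable X
    · exact Or.inl ⟨hX, hXY.elim (fun _ => Infinite.of_injective w hw) id⟩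
    · have := not_countable_iff.1 hX
      have := hw.uncountable
      exact Or.inr ⟨this, (classify hL hM).1 h⟩
  · intro h
    by_cases hX : Countable X
    · have : Infinite Y := h.elim (·.2) fun h => have := h.1; inferInstance
      exact emb_count.trans (emb_two hM)
    · have := not_countable_iff.1 hX
      obtain ⟨_, h⟩ := h.resolve_left fun h => hX h.1
      exact (classify hL hM).2 h

end Pool.Agent.Lib.MP_9ddde4_lc.Cl
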