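import Pool.Agent.Lib.MP_9ddde4_lc.Ideal

set_option autoImplicit false
open Filter Topology Set

namespace Pool.Agent.Lib.MP_9ddde4_lc

variable {Y : Type*} [TopologicalSpace Y] [PolishSpace Y]

/-- a monotone map into the ambiguous sets -/
structure Ctx (Ψ : (Xx → ℝ) → Set Y) : Prop where
  amb : ∀ u, UL u → IsGδ (Ψ u) ∧ IsGδ (Ψ u)ᶜ
  mono : ∀ u v, UL u → UL v → u ≤ v → Ψ u ⊆ Ψ v

theorem pc_cyl (x : Xx) (k : ℕ) {u v : Xx → ℝ} (hu : PC u) (hv : PC v) : PC (pw (cyl x k) u v) :=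
  PC.pw_closed (cyl_closed x k) hu hv

theorem exists_tree (p : Xx → Y) {Z : Set Xx} (hZ : ¬ Null Z) {y : Xx} {n : ℕ}
    (hs : Z ⊆ cyl y n) :
    ∃ (t : List ℕ → Xx) (l : List ℕ → ℕ) (W : List ℕ → Set Xx) (x : List ℕ → Xx)
      (j : List ℕ → ℕ), t [] = y ∧ l [] = n ∧ W [] = Z ∧ (∀ ν, W ν ⊆ cyl (t ν) (l ν)) ∧
      ∀ ν, Fan p (W ν) (l ν) (x ν) (j ν) (fun i => t (i :: ν)) (fun i => l (i :: ν))
        (fun i => W (i :: ν)) := by
  let Cell := {c : Xx × ℕ × Set Xx // ¬ Null c.2.2 ∧ c.2.2 ⊆ cyl c.1 c.2.1}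
  choose x j t l W h using fun c : Cell => exists_fan p c.2.1 c.1.2.1
  let child : Cell → ℕ → Cell := fun c i =>
    ⟨(t c i, l c i, W c i), (h c).pos i, fun z hz => ((h c).sub i hz).2⟩
  let node : List ℕ → Cell := fun ν => List.rec ⟨(y, n, Z), hZ, hs⟩ (fun i _ c => child c i) ν
  exact ⟨fun ν => (node ν).1.1, fun ν => (node ν).1.2.1, fun ν => (node ν).1.2.2,
    fun ν => x (node ν), fun ν => j (node ν), rfl, rfl, rfl, fun ν => (node ν).2.2,
    fun ν => h (node ν)⟩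

/-- closed hulls of the levels of a tree of regions -/
def hull (R : List ℕ → Set Xx) (x : List ℕ → Xx) : ℕ → List ℕ → Set Xx
  | 0, ν => R ν
  | d + 1, ν => {x ν} ∪ ⋃ i, hull R x d (i :: ν)

theorem fail {Ψ : (Xx → ℝ) → Set Y} (hΨ : Ctx Ψ) (p : Xx → Y) {wU wL : Xx → ℝ} (hU : PC wU)
    (hL : PC wL) (hw : wU ≤ wL) {y : Xx} {n : ℕ} {a m b : ℝ} (ham : a ≤ m) (hmb : m ≤ b)
    (hUa : ∀ z ∈ cyl y n, wU z = a) (hLb : ∀ z ∈ cyl y n, wL z = b) {Z : Set Xx}
    (hZ : ¬ Null Z) (hs : Z ⊆ cyl y n)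
    (h1 : ∀ x ∈ Z, ∀ j, n ≤ j → ∃ k, j ≤ k ∧
      p x ∉ Ψ (pw (cyl x k) (fun _ => m) (pw (cyl x j) (fun _ => a) wL)))
    (h2 : ∀ x ∈ Z, ∀ j, n ≤ j → ∃ k, j ≤ k ∧
      p x ∈ Ψ (pw (cyl x k) (fun _ => m) (pw (cyl x j) (fun _ => b) wU))) : False := by
  classical
  obtain ⟨t, l, W, x, j, ht0, hl0, hW0, hWs, hF⟩ := exists_tree p hZ hs
  have hWZ : ∀ ν, W ν ⊆ Z := by
    intro ν
    induction ν with
    | nil => rw [hW0]
    | cons i ν ih => exact fun z hz => ih ((hF ν).sub i hz).1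
  have hln : ∀ ν, n ≤ l ν := by
    intro ν
    induction ν with
    | nil => rw [hl0]
    | cons i ν ih => exact ih.trans ((hF ν).lenl i)
  have hk : ∀ ν, ∃ k, j ν ≤ k ∧ (Even ν.length →
      p (x ν) ∈ Ψ (pw (cyl (x ν) k) (fun _ => m) (pw (cyl (x ν) (j ν)) (fun _ => b) wU))) ∧
      (¬ Even ν.length →
      p (x ν) ∉ Ψ (pw (cyl (x ν) k) (fun _ => m) (pw (cyl (x ν) (j ν)) (fun _ => a) wL))) := by
    intro ν
    have hx := hWZ ν (hF ν).mem
    have hj := (hln ν).trans (hF ν).len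
    by_cases he : Even ν.length
    · obtain ⟨k, hk, h⟩ := h2 _ hx _ hj
      exact ⟨k, hk, fun _ => h, fun h' => (h' he).elim⟩
    · obtain ⟨k, hk, h⟩ := h1 _ hx _ hj
      exact ⟨k, hk, fun h' => (he h').elim, fun _ => h⟩
  choose k hjk hin hout using hk
  set R : List ℕ → Set Xx := fun ν => cyl (t ν) (l ν) with hR
  set A : List ℕ → Set Xx := fun ν => cyl (x ν) (j ν) with hA
  set B : List ℕ → Set Xx := fun ν => cyl (x ν) (k ν) with hB
  set E : List ℕ → Set Xx := fun ν => R ν ∩ (⋃ i, R (i :: ν))ᶜ with hE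
  have hR0 : R [] = cyl y n := by simp only [hR, ht0, hl0]
  have hAR : ∀ ν, A ν ⊆ R ν := fun ν => cyl_sub (hWs ν (hF ν).mem) (hF ν).len
  have hBA : ∀ ν, B ν ⊆ A ν := fun ν => cyl_anti _ (hjk ν)
  have hRc : ∀ ν i, R (i :: ν) ⊆ R ν := fun ν i => (hF ν).reg_sub (hWs ν) i
  have hRr : ∀ ν, R ν ⊆ cyl y n := by
    intro ν
    induction ν with
    | nil => rw [hR0]
    | cons i ν ih => exact (hRc ν i).trans ih
  have hAE : ∀ ν, A ν ⊆ E ν := fun ν z hz => ⟨hAR ν hz, fun h => by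
    obtain ⟨i, hi⟩ := mem_iUnion.1 h
    exact Set.disjoint_left.1 ((hF ν).out i) hi hz⟩
  have hsib : ∀ ν i i' z, z ∈ R (i :: ν) → z ∈ R (i' :: ν) → i = i' := fun ν i i' z h h' => by
    by_contra hne
    exact Set.disjoint_left.1 ((hF ν).dis i i' hne) h h'
  have hlen : ∀ z ν μ, ν.length = μ.length → z ∈ R ν → z ∈ R μ → ν = μ := by
    intro z ν
    induction ν with
    | nil => intro μ h _ _; exact (List.length_eq_zero_iff.1 h.symm).symm
    | cons i ν ih =>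
      intro μ h hz hz'
      cases μ with
      | nil => simp at h
      | cons i' μ =>
        have := ih μ (by simpa using h) (hRc _ _ hz) (hRc _ _ hz')
        subst this
        rw [hsib ν i i' z hz hz']
  have hanc : ∀ z d μ, z ∈ R μ → d ≤ μ.length → ∃ ν, ν.length = d ∧ z ∈ R ν := by
    intro z d μ
    induction μ with
    | nil => intro hz h; exact ⟨[], by simpa using (Nat.le_zero.1 h).symm, hz⟩
    | cons i μ ih =>
      intro hz h
      rcases h.eq_or_lt with h | h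
      · exact ⟨i :: μ, h.symm, hz⟩
      · exact ih (hRc _ _ hz) (by simpa [Nat.lt_succ_iff] using h)
  have hEl : ∀ z ν μ, z ∈ E ν → z ∈ R μ → μ.length ≤ ν.length := by
    intro z ν μ hz hz'
    by_contra hc
    obtain ⟨κ, hκ, hzκ⟩ := hanc z (ν.length + 1) μ hz' (by omega)
    cases κ with
    | nil => simp at hκ
    | cons i κ =>
      have := hlen z κ ν (by simpa using hκ) (hRc _ _ hzκ) hz.1
      subst this
      exact hz.2 (mem_iUnion.2 ⟨i, hzκ⟩)
  have hEu : ∀ z ν μ, z ∈ E ν → z ∈ E μ → ν = μ := fun z ν μ h h' =>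
    hlen z ν μ (le_antisymm (hEl z μ ν h' h.1) (hEl z ν μ h h'.1)) h.1 h'.1
  set I1 : Set Xx := {z | ∃ ν, Even ν.length ∧ z ∈ A ν ∩ (B ν)ᶜ} with hI1
  set I2 : Set Xx := {z | ∃ ν, z ∈ A ν ∩ (B ν)ᶜ} with hI2
  set h : Xx → ℝ := pw I1 (fun _ => b) (pw I2 (fun _ => a) (pw (cyl y n) (fun _ => m) wL)) with hh
  have hmid : ∀ z ∈ cyl y n, z ∉ I2 → h z = m := fun z hz hz2 => by
    have : z ∉ I1 := fun ⟨ν, _, hν⟩ => hz2 ⟨ν, hν⟩
    rw [hh, pw_out this, pw_out hz2, pw_in hz]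
  have hoff : ∀ z, z ∉ cyl y n → h z = wL z := fun z hz => by
    have h2 : z ∉ I2 := fun ⟨ν, hν⟩ => hz (hRr ν (hAR ν hν.1))
    have : z ∉ I1 := fun ⟨ν, _, hν⟩ => h2 ⟨ν, hν⟩
    rw [hh, pw_out this, pw_out h2, pw_out hz]
  have hbd : ∀ z ∈ cyl y n, a ≤ h z ∧ h z ≤ b := fun z hz => by
    by_cases c1 : z ∈ I1
    · rw [hh, pw_in c1]; exact ⟨ham.trans hmb, le_rfl⟩
    by_cases c2 : z ∈ I2
    · rw [hh, pw_out c1, pw_in c2]; exact ⟨le_rfl, ham.trans hmb⟩
    · rw [hmid z hz c2]; exact ⟨ham, hmb⟩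
  have honE : ∀ ν, ∀ z ∈ E ν, h z =
      pw (A ν ∩ (B ν)ᶜ) (fun _ => if Even ν.length then b else a) (fun _ => m) z := by
    intro ν z hz
    by_cases c : z ∈ A ν ∩ (B ν)ᶜ
    · rw [pw_in c]
      by_cases he : Even ν.length
      · rw [if_pos he, hh, pw_in (show z ∈ I1 from ⟨ν, he, c⟩)]
      · have : z ∉ I1 := fun ⟨μ, hμ, hz'⟩ => he (by rw [hEu z ν μ hz (hAE μ hz'.1)]; exact hμ)
        rw [if_neg he, hh, pw_out this, pw_in (show z ∈ I2 from ⟨ν, c⟩)]
    · rw [pw_out c]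
      exact hmid z (hRr ν hz.1) fun ⟨μ, hz'⟩ => c (by rw [hEu z ν μ hz (hAE μ hz'.1)]; exact hz')
  have hKR : ∀ d ν, hull R x d ν ⊆ R ν := by
    intro d
    induction d with
    | zero => exact fun ν => subset_rfl
    | succ d ih =>
      intro ν
      rintro z (hz | hz)
      · rw [mem_singleton_iff.1 hz]; exact hWs ν (hF ν).mem
      · obtain ⟨i, hi⟩ := mem_iUnion.1 hz
        exact hRc ν i (ih _ hi)
  have hKc : ∀ d ν, IsClosed (hull R x d ν) := by
    intro d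
    induction d with
    | zero => exact fun ν => cyl_closed _ _
    | succ d ih =>
      intro ν
      refine closed_fan (fun i => ih _) (tendsto_smallSets_iff.2 fun O hO => ?_)
      exact (tendsto_smallSets_iff.1 (hF ν).conv O hO).mono fun i hi => (hKR d _).trans hi
  have hKd : ∀ z, (∀ d, z ∈ hull R x d []) → ∀ μ, z ∈ R μ → ∀ d, z ∈ hull R x d μ := by
    intro z hz μ
    induction μ with
    | nil => exact fun _ => hz
    | cons i μ ih =>
      intro hzi d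
      rcases ih (hRc _ _ hzi) (d + 1) with h' | h'
      · rw [mem_singleton_iff.1 h'] at hzi
        exact (Set.disjoint_left.1 ((hF μ).out i) hzi (mem_cyl_self _ _)).elim
      · obtain ⟨i', hi'⟩ := mem_iUnion.1 h'
        rw [hsib μ i i' z hzi (hKR d _ hi')]; exact hi'
  have hPC : PC h := by
    refine PC.of_cover (ι := List ℕ ⊕ Bool)
      (Sum.elim E fun c => cond c (cyl y n)ᶜ (⋂ d, hull R x d []))
      (Sum.elim (fun ν => pw (A ν ∩ (B ν)ᶜ) (fun _ => if Even ν.length then b else a) fun _ => m)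
        fun c => cond c wL fun _ => m) ?_ ?_ ?_ ?_
    · rintro (ν | _ | _)
      · exact (Fs.of_closed (cyl_closed _ _)).inter (hF ν).fs
      · exact Fs.of_closed (isClosed_iInter fun d => hKc d [])
      · exact Fs.of_open (cyl_closed y n).isOpen_compl
    · rintro (ν | _ | _)
      · refine PC.pw ((Fs.of_closed (cyl_closed _ _)).inter
          (Fs.of_open (cyl_closed _ _).isOpen_compl)) ?_ (PC.const _) (PC.const _)
        rw [compl_inter, compl_compl]
        exact (Fs.of_open (cyl_closed _ _).isOpen_compl).union (Fs.of_closed (cyl_closed _ _))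
      · exact PC.const _
      · exact hL
    · intro z
      by_cases c1 : z ∈ cyl y n
      swap
      · exact ⟨Sum.inr true, c1⟩
      by_cases c2 : ∃ ν, z ∈ E ν
      · obtain ⟨ν, hν⟩ := c2
        exact ⟨Sum.inl ν, hν⟩
      push Not at c2
      refine ⟨Sum.inr false, mem_iInter.2 fun d => ?_⟩
      have : ∀ d ν, z ∈ R ν → z ∈ hull R x d ν := by
        intro d
        induction d with
        | zero => exact fun ν hν => hν
        | succ d ih =>
          intro ν hν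
          have : z ∈ ⋃ i, R (i :: ν) := by
            by_contra hc
            exact c2 ν ⟨hν, hc⟩
          obtain ⟨i, hi⟩ := mem_iUnion.1 this
          exact Or.inr (mem_iUnion.2 ⟨i, ih _ hi⟩)
      exact this d [] (by rw [hR0]; exact c1)
    · rintro (ν | _ | _) z hz
      · exact honE ν z hz
      · have hz' : ∀ d, z ∈ hull R x d [] := mem_iInter.1 hz
        refine hmid z (by rw [← hR0]; exact hz' 0) fun ⟨μ, hμ⟩ => ?_
        rcases hKd z hz' μ (hAR μ hμ.1) 1 with h' | h'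
        · rw [mem_singleton_iff.1 h'] at hμ
          exact hμ.2 (mem_cyl_self _ _)
        · exact (hAE μ hμ.1).2 h'
      · exact hoff z hz
  refine tree_contra (Ψ h) (hΨ.amb h hPC.ul).1 (hΨ.amb h hPC.ul).2 (fun ν => p (x ν))
    (fun ν => ?_) (fun ν => ?_)
  · by_cases he : Even ν.length
    · refine iff_of_true (hΨ.mono _ _ (pc_cyl _ _ (PC.const _) (pc_cyl _ _ (PC.const _) hU)).ul
        hPC.ul (fun z => ?_) (hin ν he)) he
      by_cases c1 : z ∈ B ν
      · rw [pw_in c1, honE ν z (hAE ν (hBA ν c1)), pw_out fun hc => hc.2 c1]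
      rw [pw_out c1]
      by_cases c2 : z ∈ A ν
      · rw [pw_in c2, honE ν z (hAE ν c2), pw_in (show z ∈ A ν ∩ (B ν)ᶜ from ⟨c2, c1⟩), if_pos he]
      rw [pw_out c2]
      by_cases c3 : z ∈ cyl y n
      · rw [hUa z c3]; exact (hbd z c3).1
      · rw [hoff z c3]; exact hw z
    · refine iff_of_false (fun hc => hout ν he (hΨ.mono _ _ hPC.ul
        (pc_cyl _ _ (PC.const _) (pc_cyl _ _ (PC.const _) hL)).ul (fun z => ?_) hc)) he
      by_cases c1 : z ∈ B ν
      · rw [pw_in c1, honE ν z (hAE ν (hBA ν c1)), pw_out fun hc => hc.2 c1]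
      rw [pw_out c1]
      by_cases c2 : z ∈ A ν
      · rw [pw_in c2, honE ν z (hAE ν c2), pw_in (show z ∈ A ν ∩ (B ν)ᶜ from ⟨c2, c1⟩), if_neg he]
      rw [pw_out c2]
      by_cases c3 : z ∈ cyl y n
      · rw [hLb z c3]; exact (hbd z c3).2
      · rw [hoff z c3]
  · exact (hF ν).pconv.of_smallSets
      (Eventually.of_forall fun i => mem_image_of_mem p (hF (i :: ν)).mem)

end Pool.Agent.Lib.MP_9ddde4_lc
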