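import Pool.Agent.Lib.MP_9ddde4_lc.Basic

set_option autoImplicit false
open Filter Topology Set

namespace Pool.Agent.Lib.MP_9ddde4_lc

abbrev Cc : Type := ℕ → Bool
abbrev Xx : Type := ℕ → Cc

/-- truncation -/
def tr (x : Xx) (k : ℕ) : Xx := fun i => if i < k then x i else fun _ => false

/-- points with the same first `k` coordinates -/
def cyl (x : Xx) (k : ℕ) : Set Xx := {z | ∀ i < k, z i = x i}

theorem tr_tr (x : Xx) {j k : ℕ} (h : j ≤ k) : tr (tr x k) j = tr x j := by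
  funext i
  by_cases hi : i < j
  · simp [tr, hi, hi.trans_le h]
  · simp [tr, hi]

theorem mem_cyl_self (x : Xx) (k : ℕ) : x ∈ cyl x k := fun _ _ => rfl

theorem mem_cyl_tr (x : Xx) (k : ℕ) : x ∈ cyl (tr x k) k := fun i hi => by simp [tr, hi]

theorem cyl_anti (x : Xx) {j k : ℕ} (h : j ≤ k) : cyl x k ⊆ cyl x j :=
  fun _ hz i hi => hz i (hi.trans_le h)

theorem cyl_eq {x z : Xx} {k : ℕ} (h : z ∈ cyl x k) : cyl z k = cyl x k := by
  ext w
  exact ⟨fun hw i hi => (hw i hi).trans (h i hi), fun hw i hi => (hw i hi).trans (h i hi).symm⟩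

theorem cyl_sub {x z : Xx} {j k : ℕ} (h : z ∈ cyl x j) (hk : j ≤ k) : cyl z k ⊆ cyl x j := by
  rw [← cyl_eq h]; exact cyl_anti z hk

theorem cyl_zero (x : Xx) : cyl x 0 = univ := by
  ext z; simp [cyl]

theorem cyl_closed (x : Xx) (k : ℕ) : IsClosed (cyl x k) := by
  have : cyl x k = ⋂ i ∈ Iio k, {z : Xx | z i = x i} := by
    ext z; simp [cyl]
  rw [this]
  exact isClosed_biInter fun i _ => isClosed_eq (continuous_apply i) continuous_const

theorem exists_cyl_subset {U : Set Xx} {z : Xx} (hU : U ∈ 𝓝 z) : ∃ l, cyl z l ⊆ U := by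
  rw [nhds_pi, Filter.mem_pi] at hU
  obtain ⟨I, hI, t, ht, hsub⟩ := hU
  obtain ⟨l, hl⟩ := hI.bddAbove
  refine ⟨l + 1, fun w hw => hsub fun i hi => ?_⟩
  rw [hw i (Nat.lt_succ_of_le (hl hi))]
  exact mem_of_mem_nhds (ht i)

/-- the ideal: sets caught infinitely often by countable sets attached to the nodes -/
def Null (Z : Set Xx) : Prop :=
  ∃ N : ℕ → Xx → Set Cc, (∀ k y, (N k y).Countable) ∧
    ∀ x ∈ Z, ∃ᶠ k in atTop, x k ∈ N k (tr x k)

theorem Null.mono {Z W : Set Xx} (h : Null W) (hs : Z ⊆ W) : Null Z := by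
  obtain ⟨N, hN, hx⟩ := h
  exact ⟨N, hN, fun x hz => hx x (hs hz)⟩

theorem null_empty : Null ∅ := ⟨fun _ _ => ∅, fun _ _ => countable_empty, fun _ h => h.elim⟩

theorem nonempty_of_not_null {Z : Set Xx} (h : ¬ Null Z) : Z.Nonempty := by
  rw [nonempty_iff_ne_empty]
  rintro rfl
  exact h null_empty

theorem null_iUnion {ι : Type*} [Countable ι] {Z : ι → Set Xx} (h : ∀ i, Null (Z i)) :
    Null (⋃ i, Z i) := by
  choose N hN hx using h
  refine ⟨fun k y => ⋃ i, N i k y, fun k y => countable_iUnion fun i => hN i k y, fun x hz => ?_⟩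
  obtain ⟨i, hi⟩ := mem_iUnion.1 hz
  exact (hx i x hi).mono fun k hk => mem_iUnion.2 ⟨i, hk⟩

theorem Null.union {Z W : Set Xx} (h1 : Null Z) (h2 : Null W) : Null (Z ∪ W) := by
  rw [union_eq_iUnion]
  exact null_iUnion fun b => by cases b <;> simpa

theorem null_of_cyl {P : Set Xx} (j : ℕ) (h : ∀ y, Null (P ∩ cyl y j)) : Null P := by
  choose N hN hx using h
  refine ⟨fun k y => N (tr y j) k y, fun k y => hN _ _ _, fun x hz => ?_⟩
  refine ((hx (tr x j) x ⟨hz, mem_cyl_tr x j⟩).and_eventually (eventually_ge_atTop j)).mono ?_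
  rintro k ⟨h1, h2⟩
  simpa only [tr_tr x h2] using h1

theorem exists_cyl_not_null {P : Set Xx} (h : ¬ Null P) (j : ℕ) : ∃ y, ¬ Null (P ∩ cyl y j) := by
  by_contra hc
  push Not at hc
  exact h (null_of_cyl j hc)

theorem not_null_univ : ¬ Null univ := by
  rintro ⟨N, hN, hx⟩
  have hex : ∀ k y, ∃ s, s ∉ N k y := fun k y => by
    by_contra hc
    push Not at hc
    have h1 : (univ : Set Cc).Countable := (hN k y).mono fun s _ => hc s
    have h2 : Countable Cc := countable_univ_iff.1 h1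
    obtain ⟨e, he⟩ := exists_surjective_nat Cc
    obtain ⟨n, hn⟩ := he fun n => !(e n n)
    have := congrFun hn n
    simp at this
  choose c hc using hex
  let y : ℕ → Xx := fun k => Nat.rec (fun _ _ => false) (fun k y => Function.update y k (c k y)) k
  have hy : ∀ k, y (k + 1) = Function.update (y k) k (c k (y k)) := fun k => rfl
  let x : Xx := fun k => c k (y k)
  have key : ∀ k, tr x k = y k := by
    intro k
    induction k with
    | zero => funext i; simp [tr, y]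
    | succ k ih =>
      rw [hy, ← ih]
      funext i
      by_cases hi : i = k
      · subst hi; simp [tr, x, ← ih]
      · rw [Function.update_of_ne hi]
        have : i < k + 1 ↔ i < k := by omega
        simp [tr, this]
  obtain ⟨k, hk⟩ := (hx x (mem_univ x)).exists
  rw [key] at hk
  exact hc k (y k) hk

theorem exists_split {Z : Set Xx} (hZ : ¬ Null Z) (n : ℕ) :
    ∃ k, n ≤ k ∧ ∃ y, ¬ {s | ¬ Null (Z ∩ cyl (Function.update y k s) (k + 1))}.Countable := by
  by_contra hc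
  push Not at hc
  apply hZ
  have h1 : Null (⋃ k, {x ∈ Z | Null (Z ∩ cyl x k)}) := by
    refine null_iUnion fun k => null_of_cyl k fun y => ?_
    rcases ({x ∈ Z | Null (Z ∩ cyl x k)} ∩ cyl y k).eq_empty_or_nonempty with h | ⟨x, hx, hxy⟩
    · rw [h]; exact null_empty
    · refine hx.2.mono fun z hz => ⟨hz.1.1, ?_⟩
      rw [cyl_eq hxy]; exact hz.2
  have h2 : Null {x ∈ Z | ∀ k, ¬ Null (Z ∩ cyl x k)} := by
    refine ⟨fun k y => {s | n ≤ k ∧ ¬ Null (Z ∩ cyl (Function.update y k s) (k + 1))},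
      fun k y => ?_, fun x hx => ?_⟩
    · by_cases hk : n ≤ k
      · exact (hc k hk y).mono fun s hs => hs.2
      · exact countable_empty.mono fun s hs => hk hs.1
    · refine ((eventually_ge_atTop n).mono fun k hk => ⟨hk, ?_⟩).frequently
      have : x ∈ cyl (Function.update (tr x k) k (x k)) (k + 1) := by
        intro i hi
        by_cases h : i = k
        · subst h; simp
        · rw [Function.update_of_ne h]; exact mem_cyl_tr x k i (by omega)
      rw [← cyl_eq this]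
      exact hx.2 _
  refine (h1.union h2).mono fun x hx => ?_
  by_cases h : ∀ k, ¬ Null (Z ∩ cyl x k)
  · exact Or.inr ⟨hx, h⟩
  · push Not at h
    obtain ⟨k, hk⟩ := h
    exact Or.inl (mem_iUnion.2 ⟨k, hx, hk⟩)

theorem disjoint_ext (y : Xx) (k : ℕ) {s s' : Cc} (h : s ≠ s') :
    Disjoint (cyl (Function.update y k s) (k + 1)) (cyl (Function.update y k s') (k + 1)) := by
  rw [Set.disjoint_left]
  intro z h1 h2
  have a := h1 k (Nat.lt_succ_self k)
  have b := h2 k (Nat.lt_succ_self k)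
  rw [Function.update_self] at a b
  exact h (a.symm.trans b)

theorem exists_two {Z : Set Xx} (hZ : ¬ Null Z) (n : ℕ) :
    ∃ (y : Bool → Xx) (l : ℕ), n ≤ l ∧ (∀ b, ¬ Null (Z ∩ cyl (y b) l)) ∧
      Disjoint (cyl (y false) l) (cyl (y true) l) := by
  obtain ⟨k, hk, y, hy⟩ := exists_split hZ n
  have hinf : {s | ¬ Null (Z ∩ cyl (Function.update y k s) (k + 1))}.Infinite :=
    fun h => hy h.countable
  obtain ⟨s, hs, s', hs', hne⟩ := hinf.nontrivial
  refine ⟨fun b => Function.update y k (cond b s' s), k + 1, by omega, fun b => ?_,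
    disjoint_ext y k hne⟩
  cases b
  · exact hs
  · exact hs'

theorem exists_inj {α : Type*} (S : ℕ → Set α) (hS : ∀ i, (S i).Infinite) :
    ∃ s : ℕ → α, Function.Injective s ∧ ∀ i, s i ∈ S i := by
  classical
  choose c hc hc' using fun (i : ℕ) (F : Finset α) => (hS i).exists_notMem_finset F
  let F : ℕ → Finset α := fun k => Nat.rec ∅ (fun i F => insert (c i F) F) k
  have hF : ∀ i, F (i + 1) = insert (c i (F i)) (F i) := fun _ => rfl
  have hm : Monotone F := monotone_nat_of_le_succ fun i => by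
    rw [hF]; exact Finset.subset_insert _ _
  refine ⟨fun i => c i (F i), Function.Injective.of_lt_imp_ne fun i j hij h => ?_, fun i => hc _ _⟩
  apply hc' j (F j)
  rw [← h]
  exact hm (Nat.succ_le_of_lt hij) (by rw [hF]; exact Finset.mem_insert_self _ _)

theorem closed_fan {T : Type*} [TopologicalSpace T] [T2Space T] {x : T} {K : ℕ → Set T}
    (hK : ∀ i, IsClosed (K i)) (hc : Tendsto K atTop (𝓝 x).smallSets) :
    IsClosed ({x} ∪ ⋃ i, K i) := by
  rw [← isOpen_compl_iff, isOpen_iff_mem_nhds]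
  intro z hz
  simp only [mem_compl_iff, mem_union, mem_singleton_iff, mem_iUnion, not_or, not_exists] at hz
  obtain ⟨A, B, hA, hB, hzA, hxB, hAB⟩ := t2_separation hz.1
  obtain ⟨N, hN⟩ := eventually_atTop.1 (tendsto_smallSets_iff.1 hc B (hB.mem_nhds hxB))
  have h1 : (⋃ i ∈ Finset.range N, K i)ᶜ ∈ 𝓝 z := by
    refine (isClosed_biUnion_finset fun i _ => hK i).isOpen_compl.mem_nhds ?_
    simp only [mem_compl_iff, mem_iUnion, not_exists]
    exact fun i _ => hz.2 i
  filter_upwards [h1, hA.mem_nhds hzA] with w hw hwA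
  simp only [mem_compl_iff, mem_union, mem_singleton_iff, mem_iUnion, not_or, not_exists] at hw ⊢
  refine ⟨fun h => Set.disjoint_left.1 hAB hwA (h ▸ hxB), fun i hi => ?_⟩
  rcases lt_or_ge i N with h | h
  · exact hw i (Finset.mem_range.2 h) hi
  · exact Set.disjoint_left.1 hAB hwA (hN i h hi)

variable {Y : Type*} [TopologicalSpace Y] [SecondCountableTopology Y]

theorem exists_cond (p : Xx → Y) {Z : Set Xx} (hZ : ¬ Null Z) (n : ℕ) :
    ∃ x ∈ Z, ∃ k, n ≤ k ∧ ∀ O ∈ 𝓝 (x, p x),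
      ¬ {s | ¬ Null (Z ∩ {z | (z, p z) ∈ O} ∩ cyl (Function.update x k s) (k + 1))}.Countable := by
  obtain ⟨k, hk, y, hy⟩ := exists_split hZ n
  set S : Set (Xx × Y) → Set Cc := fun O =>
    {s | ¬ Null (Z ∩ {z | (z, p z) ∈ O} ∩ cyl (Function.update y k s) (k + 1))} with hS
  set Th : Set (Set (Xx × Y)) :=
    {O ∈ TopologicalSpace.countableBasis (Xx × Y) | (S O).Countable} with hTh
  have hThc : Th.Countable :=
    (TopologicalSpace.countable_countableBasis _).mono fun O hO => hO.1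
  have hN : (⋃ O ∈ Th, S O).Countable := hThc.biUnion fun O hO => hO.2
  obtain ⟨s0, hs0, hs1⟩ : ∃ s0, ¬ Null (Z ∩ cyl (Function.update y k s0) (k + 1)) ∧
      s0 ∉ ⋃ O ∈ Th, S O := by
    by_contra hc
    push Not at hc
    exact hy (hN.mono fun s hs => hc s hs)
  have := hThc.to_subtype
  have hbad : Null (⋃ O : Th,
      Z ∩ {z | (z, p z) ∈ O.1} ∩ cyl (Function.update y k s0) (k + 1)) := by
    refine null_iUnion fun O => ?_
    by_contra hc
    exact hs1 (mem_iUnion₂.2 ⟨O.1, O.2, hc⟩)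
  obtain ⟨x, hx, hxb⟩ : ∃ x ∈ Z ∩ cyl (Function.update y k s0) (k + 1), x ∉ ⋃ O : Th,
      Z ∩ {z | (z, p z) ∈ O.1} ∩ cyl (Function.update y k s0) (k + 1) := by
    by_contra hc
    push Not at hc
    exact hs0 (hbad.mono hc)
  refine ⟨x, hx.1, k, hk, fun O hO hcO => ?_⟩
  obtain ⟨W, hW, hxW, hWO⟩ :=
    (TopologicalSpace.isBasis_countableBasis (Xx × Y)).mem_nhds_iff.1 hO
  have hup : ∀ s, cyl (Function.update x k s) (k + 1) = cyl (Function.update y k s) (k + 1) := by
    intro s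
    apply cyl_eq
    intro i hi
    by_cases h : i = k
    · subst h; simp
    · have := hx.2 i hi
      rw [Function.update_of_ne h] at this ⊢
      rw [Function.update_of_ne h]; exact this
  refine hxb (mem_iUnion.2 ⟨⟨W, hW, hcO.mono fun s hs => ?_⟩, ⟨hx.1, hxW⟩, hx.2⟩)
  simp only [mem_ofPred_eq, hup]
  exact fun h => hs (h.mono fun z hz => ⟨⟨hz.1.1, hWO hz.1.2⟩, hz.2⟩)

/-- a point `x`, a cylinder of length `j` around it, and cells converging to it from outside -/
structure Fan (p : Xx → Y) (Z : Set Xx) (n : ℕ) (x : Xx) (j : ℕ) (t : ℕ → Xx) (l : ℕ → ℕ)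
    (W : ℕ → Set Xx) : Prop where
  mem : x ∈ Z
  len : n ≤ j
  pos : ∀ i, ¬ Null (W i)
  sub : ∀ i, W i ⊆ Z ∩ cyl (t i) (l i)
  lenl : ∀ i, n ≤ l i
  out : ∀ i, Disjoint (cyl (t i) (l i)) (cyl x j)
  dis : ∀ i i', i ≠ i' → Disjoint (cyl (t i) (l i)) (cyl (t i') (l i'))
  conv : Tendsto (fun i => cyl (t i) (l i)) atTop (𝓝 x).smallSets
  pconv : Tendsto (fun i => p '' W i) atTop (𝓝 (p x)).smallSets

theorem exists_fan (p : Xx → Y) {Z : Set Xx} (hZ : ¬ Null Z) (n : ℕ) :
    ∃ x j t l W, Fan p Z n x j t l W := by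
  obtain ⟨x, hx, k, hk, h⟩ := exists_cond p hZ n
  obtain ⟨U, hU⟩ := (𝓝 x).exists_antitone_basis
  obtain ⟨V, hV⟩ := (𝓝 (p x)).exists_antitone_basis
  have hO : ∀ i, interior (U i) ×ˢ V i ∈ 𝓝 (x, p x) := fun i =>
    prod_mem_nhds (interior_mem_nhds.2 (hU.mem i)) (hV.mem i)
  obtain ⟨s, hs, hsS⟩ := exists_inj
    (fun i => {s | ¬ Null (Z ∩ {z | (z, p z) ∈ interior (U i) ×ˢ V i} ∩
      cyl (Function.update x k s) (k + 1))} \ {x k})
    (fun i => Set.Infinite.sdiff (fun hf => h _ (hO i) hf.countable) (finite_singleton _))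
  have hcell : ∀ i, ∃ (t : Xx) (l : ℕ) (W : Set Xx), ¬ Null W ∧ W ⊆ Z ∩ cyl t l ∧ k + 1 ≤ l ∧
      cyl t l ⊆ cyl (Function.update x k (s i)) (k + 1) ∧ cyl t l ⊆ U i ∧ p '' W ⊆ V i := by
    intro i
    set P := Z ∩ {z | (z, p z) ∈ interior (U i) ×ˢ V i} ∩
      cyl (Function.update x k (s i)) (k + 1) with hP
    have hPn : ¬ Null P := (hsS i).1
    obtain ⟨l, hl⟩ : ∃ l, ¬ Null {z ∈ P | cyl z l ⊆ U i} := by
      by_contra hc
      push Not at hc
      refine hPn ((null_iUnion hc).mono fun z hz => ?_)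
      obtain ⟨l, hl⟩ := exists_cyl_subset (mem_interior_iff_mem_nhds.1 hz.1.2.1)
      exact mem_iUnion.2 ⟨l, hz, hl⟩
    obtain ⟨t, ht⟩ := exists_cyl_not_null hl (max l (k + 1))
    obtain ⟨z, hz, hzt⟩ := nonempty_of_not_null ht
    refine ⟨t, max l (k + 1), _, ht, fun w hw => ⟨hw.1.1.1.1, hw.2⟩, le_max_right _ _, ?_, ?_, ?_⟩
    · rw [← cyl_eq hzt]; exact cyl_sub hz.1.2 (le_max_right _ _)
    · rw [← cyl_eq hzt]; exact (cyl_anti z (le_max_left _ _)).trans hz.2
    · rintro _ ⟨w, hw, rfl⟩; exact hw.1.1.1.2.2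
  choose t l W h1 h2 h3 h4 h5 h6 using hcell
  refine ⟨x, k + 1, t, l, W, hx, by omega, h1, h2, fun i => by have := h3 i; omega,
    fun i => ?_, fun i i' hne => ?_, ?_, ?_⟩
  · have := disjoint_ext x k (s := s i) (s' := x k) (hsS i).2
    rw [Function.update_eq_self] at this
    exact this.mono_left (h4 i)
  · exact (disjoint_ext x k (hs.ne hne)).mono (h4 i) (h4 i')
  · refine tendsto_smallSets_iff.2 fun O hO => ?_
    exact (hU.eventually_subset hO).mono fun i hi => (h5 i).trans hi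
  · refine tendsto_smallSets_iff.2 fun O hO => ?_
    exact (hV.eventually_subset hO).mono fun i hi => (h6 i).trans hi

omit [SecondCountableTopology Y] in
theorem Fan.reg_sub {p : Xx → Y} {Z : Set Xx} {n : ℕ} {x : Xx} {j : ℕ} {t : ℕ → Xx} {l : ℕ → ℕ}
    {W : ℕ → Set Xx} (h : Fan p Z n x j t l W) {y : Xx} (hZ : Z ⊆ cyl y n) (i : ℕ) :
    cyl (t i) (l i) ⊆ cyl y n := by
  obtain ⟨z, hz⟩ := nonempty_of_not_null (h.pos i)
  rw [← cyl_eq (h.sub i hz).2]
  exact cyl_sub (hZ (h.sub i hz).1) (h.lenl i)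

omit [SecondCountableTopology Y] in
theorem Fan.fs {p : Xx → Y} {Z : Set Xx} {n : ℕ} {x : Xx} {j : ℕ} {t : ℕ → Xx} {l : ℕ → ℕ}
    {W : ℕ → Set Xx} (h : Fan p Z n x j t l W) : Fs (⋃ i, cyl (t i) (l i))ᶜ := by
  have h1 := closed_fan (fun i => cyl_closed (t i) (l i)) h.conv
  have : (⋃ i, cyl (t i) (l i))ᶜ = ({x} ∪ ⋃ i, cyl (t i) (l i))ᶜ ∪ {x} := by
    ext z
    by_cases hz : z = x
    · subst hz
      simp only [mem_compl_iff, mem_iUnion, not_exists, mem_union, mem_singleton_iff, or_true,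
        iff_true]
      exact fun i hi => Set.disjoint_left.1 (h.out i) hi (mem_cyl_self _ _)
    · simp [hz]
  rw [this]
  exact (Fs.of_open h1.isOpen_compl).union (Fs.of_closed isClosed_singleton)

end Pool.Agent.Lib.MP_9ddde4_lc
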