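import Pool.Agent.Lib.MP_9ddde4_lc.Step

set_option autoImplicit false
open Filter Topology Set

namespace Pool.Agent.Lib.MP_9ddde4_lc

variable {Y : Type*} [TopologicalSpace Y] [PolishSpace Y]
variable {Ψ : (Xx → ℝ) → Set Y} {p : Xx → Y}

/-- new data at the children of `ν0` -/
def graft {α : Type*} (ν0 : List ℕ) (new : ℕ → α) (old : List ℕ → α) : List ℕ → α
  | [] => old []
  | i :: μ => if μ = ν0 then new i else old (i :: μ)

theorem graft_new {α : Type*} (ν0 : List ℕ) (new : ℕ → α) (old : List ℕ → α) (i : ℕ) :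
    graft ν0 new old (i :: ν0) = new i := by simp [graft]

theorem graft_old {α : Type*} {ν0 ν : List ℕ} (new : ℕ → α) (old : List ℕ → α)
    (h : ∀ i, ν ≠ i :: ν0) : graft ν0 new old ν = old ν := by
  cases ν with
  | nil => rfl
  | cons i μ =>
    have : μ ≠ ν0 := fun c => h i (by rw [c])
    simp [graft, this]

theorem branch (hΨ : Ctx Ψ) {Λ Λ' : Set (List ℕ)} {S : St} (h : Inv Ψ p Λ S) {ν0 : List ℕ}
    (h0 : ν0 ∈ Λ) (hfresh : ∀ i, i :: ν0 ∉ Λ)
    (hΛ : ∀ ν, ν ∈ Λ' ↔ (ν ∈ Λ ∧ ν ≠ ν0) ∨ ∃ i, ν = i :: ν0) (τ : Prop) :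
    ∃ (S' : St) (x : Xx), Inv Ψ p Λ' S' ∧ S.f ≤ S'.f ∧ S'.g ≤ S.g ∧ x ∈ S.Z ν0 ∧
      (τ → p x ∈ Ψ S'.f) ∧ (¬ τ → p x ∉ Ψ S'.g) ∧
      (∀ ν ∈ Λ, S'.Z ν = S.Z ν ∧ S'.reg ν = S.reg ν ∧ S'.a ν = S.a ν ∧ S'.b ν = S.b ν) ∧
      (∀ i, S'.a (i :: ν0) = S.a ν0 ∧ S'.b (i :: ν0) = S.b ν0 ∧ S'.reg (i :: ν0) ⊆ S.reg ν0) ∧
      Tendsto (fun i => p '' S'.Z (i :: ν0)) atTop (𝓝 (p x)).smallSets := by
  classical
  obtain ⟨x, j, t, l, W, hF⟩ := exists_fan p (h.pos ν0 h0) (S.l ν0)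
  set w : Xx → ℝ := if τ then S.g else S.f with hw
  have pw' : PC w := by
    rw [hw]; split_ifs
    · exact h.pg
    · exact h.pf
  have hfw : S.f ≤ w ∧ w ≤ S.g := by
    rw [hw]; split_ifs
    · exact ⟨h.le, le_rfl⟩
    · exact ⟨le_rfl, h.le⟩
  let S0 : St := ⟨S.f, S.g, graft ν0 t S.t, graft ν0 l S.l, graft ν0 W S.Z,
    graft ν0 (fun _ => S.a ν0) S.a, graft ν0 (fun _ => S.b ν0) S.b⟩
  have hne : ∀ ν ∈ Λ, ∀ i, ν ≠ i :: ν0 := fun ν hν i c => hfresh i (c ▸ hν)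
  have old : ∀ ν ∈ Λ, S0.Z ν = S.Z ν ∧ S0.reg ν = S.reg ν ∧ S0.a ν = S.a ν ∧ S0.b ν = S.b ν := by
    intro ν hν
    simp only [S0, St.reg, graft_old _ _ (hne ν hν), and_self]
  have new : ∀ i, S0.Z (i :: ν0) = W i ∧ S0.reg (i :: ν0) = cyl (t i) (l i) ∧
      S0.a (i :: ν0) = S.a ν0 ∧ S0.b (i :: ν0) = S.b ν0 := by
    intro i
    simp only [S0, St.reg, graft_new, and_self]
  have hch : ∀ i, cyl (t i) (l i) ⊆ S.reg ν0 := hF.reg_sub (h.sub ν0 h0)
  set D : Set Xx := {z | ∀ ν ∈ Λ', z ∉ S0.reg ν} with hD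
  have hDfs : Fs D := by
    have := h.fs_shrink (fun ν => if ν = ν0 then ⋃ i, cyl (t i) (l i) else S.reg ν)
      (fun ν _ => by
        split_ifs with c
        · rw [c]; exact iUnion_subset hch
        · exact subset_rfl)
      (fun ν _ => by
        split_ifs with c
        · exact hF.fs
        · exact Fs.of_open (cyl_closed _ _).isOpen_compl)
    convert this using 1
    ext z
    simp only [hD, mem_ofPred_eq]
    constructor
    · intro hz ν hν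
      split_ifs with c
      · intro hc
        obtain ⟨i, hi⟩ := mem_iUnion.1 hc
        exact hz (i :: ν0) ((hΛ _).2 (Or.inr ⟨i, rfl⟩)) (by rw [(new i).2.1]; exact hi)
      · rw [← (old ν hν).2.1]; exact hz ν ((hΛ _).2 (Or.inl ⟨hν, c⟩))
    · intro hz ν hν
      rcases (hΛ ν).1 hν with ⟨h1, h2⟩ | ⟨i, rfl⟩
      · have := hz ν h1
        rw [if_neg h2] at this
        rw [(old ν h1).2.1]; exact this
      · have := hz ν0 h0
        rw [if_pos rfl] at this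
        rw [(new i).2.1]; exact fun hc => this (mem_iUnion.2 ⟨i, hc⟩)
  have hDc : Fs Dᶜ := by
    have : Dᶜ = ⋃ ν ∈ Λ', S0.reg ν := by ext z; simp [hD]
    rw [this]
    exact Fs.biUnion (to_countable _) fun ν _ => Fs.of_closed (cyl_closed _ _)
  set f' := pw D w S.f with hf'
  set g' := pw D w S.g with hg'
  have pf' : PC f' := PC.pw hDfs hDc pw' h.pf
  have pg' : PC g' := PC.pw hDfs hDc pw' h.pg
  have v1 : ∀ z, z ∉ D → f' z = S.f z ∧ g' z = S.g z := fun z c => ⟨pw_out c, pw_out c⟩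
  have v2 : ∀ z ∈ D, f' z = w z ∧ g' z = w z := fun z c => ⟨pw_in c, pw_in c⟩
  have ord : ∀ z, S.f z ≤ f' z ∧ f' z ≤ g' z ∧ g' z ≤ S.g z := by
    intro z
    by_cases c : z ∈ D
    · rw [(v2 z c).1, (v2 z c).2]; exact ⟨hfw.1 z, le_rfl, hfw.2 z⟩
    · rw [(v1 z c).1, (v1 z c).2]; exact ⟨le_rfl, h.le z, le_rfl⟩
  have hxD : cyl x j ⊆ D := by
    intro z hz ν hν hc
    have hz0 : z ∈ S.reg ν0 := cyl_sub (h.sub ν0 h0 hF.mem) hF.len hz
    rcases (hΛ ν).1 hν with ⟨h1, h2⟩ | ⟨i, rfl⟩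
    · rw [(old ν h1).2.1] at hc
      exact h2 (h.dis ν h1 ν0 h0 z hc hz0)
    · rw [(new i).2.1] at hc
      exact Set.disjoint_left.1 (hF.out i) hc hz
  have par : ∀ ν ∈ Λ', ∃ μ ∈ Λ, ¬ Null (S0.Z ν) ∧ S0.Z ν ⊆ S.Z μ ∩ S0.reg ν ∧
      S0.reg ν ⊆ S.reg μ ∧ S0.a ν = S.a μ ∧ S0.b ν = S.b μ := by
    intro ν hν
    rcases (hΛ ν).1 hν with ⟨h1, -⟩ | ⟨i, rfl⟩
    · obtain ⟨e1, e2, e3, e4⟩ := old ν h1
      rw [e1, e2]
      exact ⟨ν, h1, h.pos ν h1, subset_inter subset_rfl (h.sub ν h1), subset_rfl, e3, e4⟩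
    · obtain ⟨e1, e2, e3, e4⟩ := new i
      rw [e1, e2]
      exact ⟨ν0, h0, hF.pos i, hF.sub i, hch i, e3, e4⟩
  refine ⟨{ S0 with f := f', g := g' }, x, ⟨pf', pg', fun ν hν => ?_, fun ν hν => ?_,
    fun ν hν => ?_, fun ν hν z hz => ?_, fun ν hν μ hμ z h1 h2 => ?_, fun z hz => ?_, hDfs,
    fun ν hν u hu => ?_⟩, fun z => (ord z).1, fun z => (ord z).2.2, hF.mem, fun hτ => ?_,
    fun hτ => ?_, old, fun i => ⟨(new i).2.2.1, (new i).2.2.2, ?_⟩, ?_⟩
  · obtain ⟨μ, -, h1, -⟩ := par ν hν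
    exact h1
  · obtain ⟨μ, -, -, h1, -⟩ := par ν hν
    exact fun z hz => (h1 hz).2
  · obtain ⟨μ, hμ, -, -, -, h1, h2⟩ := par ν hν
    show S0.a ν ≤ S0.b ν
    rw [h1, h2]; exact h.ab μ hμ
  · obtain ⟨μ, hμ, -, -, h3, h1, h2⟩ := par ν hν
    show f' z = S0.a ν ∧ g' z = S0.b ν
    have c : z ∉ D := fun c => c ν hν hz
    rw [h1, h2, (v1 z c).1, (v1 z c).2]; exact h.val μ hμ z (h3 hz)
  · change z ∈ S0.reg ν at h1
    change z ∈ S0.reg μ at h2
    rcases (hΛ ν).1 hν with ⟨a1, a2⟩ | ⟨i, rfl⟩ <;> rcases (hΛ μ).1 hμ with ⟨b1, b2⟩ | ⟨i', rfl⟩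
    · rw [(old ν a1).2.1] at h1
      rw [(old μ b1).2.1] at h2
      exact h.dis ν a1 μ b1 z h1 h2
    · rw [(old ν a1).2.1] at h1
      rw [(new i').2.1] at h2
      exact (a2 (h.dis ν a1 ν0 h0 z h1 (hch i' h2))).elim
    · rw [(old μ b1).2.1] at h2
      rw [(new i).2.1] at h1
      exact (b2 (h.dis μ b1 ν0 h0 z h2 (hch i h1))).elim
    · rw [(new i).2.1] at h1
      rw [(new i').2.1] at h2
      by_contra hc
      exact Set.disjoint_left.1 (hF.dis i i' fun c => hc (by rw [c])) h1 h2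
  · exact (v2 z hz).1.trans (v2 z hz).2.symm
  · obtain ⟨μ, hμ, -, h1, -⟩ := par ν hν
    have hg := h.good μ hμ u (h1 hu).1
    have e : ∀ k, S0.l ν ≤ k → ∀ z ∈ cyl u k, f' z = S.f z ∧ g' z = S.g z := fun k hk z hz =>
      v1 z fun c => c ν hν (cyl_sub (h1 hu).2 hk hz)
    exact good_of_large hΨ pf' pg' (fun z => (ord z).2.1) (S0.l ν) fun k hk =>
      ⟨good_in hΨ h.pf h.pg pf' pg' (fun z => (ord z).1) hg fun z hz => (e k hk z hz).2,
        good_out hΨ h.pf h.pg pf' pg' (fun z => (ord z).2.2) hg fun z hz => (e k hk z hz).1⟩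
  · refine hΨ.mono _ _ (pc_cyl _ _ h.pg h.pf).ul pf'.ul (fun z => ?_) (h.good ν0 h0 x hF.mem j).1
    by_cases c : z ∈ cyl x j
    · rw [pw_in c, (v2 z (hxD c)).1, hw, if_pos hτ]
    · rw [pw_out c]; exact (ord z).1
  · refine fun hc => (h.good ν0 h0 x hF.mem j).2
      (hΨ.mono _ _ pg'.ul (pc_cyl _ _ h.pf h.pg).ul (fun z => ?_) hc)
    by_cases c : z ∈ cyl x j
    · rw [pw_in c, (v2 z (hxD c)).2, hw, if_neg hτ]
    · rw [pw_out c]; exact (ord z).2.2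
  · show S0.reg (i :: ν0) ⊆ _
    rw [(new i).2.1]; exact hch i
  · show Tendsto (fun i => p '' S0.Z (i :: ν0)) _ _
    simp only [(new _).1]; exact hF.pconv

/-- nodes born and not yet processed before step `n` -/
def live (n : ℕ) : Set (List ℕ) :=
  {ν | n ≤ Encodable.encode ν ∧ ∀ i μ, ν = i :: μ → Encodable.encode μ < n}

theorem enc_lt (i : ℕ) (μ : List ℕ) : Encodable.encode μ < Encodable.encode (i :: μ) := by
  rw [Encodable.encode_list_cons]
  exact Nat.lt_succ_of_le (Nat.right_le_pair _ _)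

theorem live_enc (ν : List ℕ) : ν ∈ live (Encodable.encode ν) :=
  ⟨le_rfl, fun i μ h => by rw [h]; exact enc_lt i μ⟩

theorem live_succ (ν0 ν : List ℕ) : ν ∈ live (Encodable.encode ν0 + 1) ↔
    (ν ∈ live (Encodable.encode ν0) ∧ ν ≠ ν0) ∨ ∃ i, ν = i :: ν0 := by
  constructor
  · rintro ⟨h1, h2⟩
    by_cases c : ∃ i, ν = i :: ν0
    · exact Or.inr c
    refine Or.inl ⟨⟨by omega, fun i μ h => ?_⟩, fun c => by rw [c] at h1; omega⟩
    have := h2 i μ h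
    have : Encodable.encode μ ≠ Encodable.encode ν0 := fun e =>
      c ⟨i, by rw [h, Encodable.encode_injective e]⟩
    omega
  · rintro (⟨⟨h1, h2⟩, h3⟩ | ⟨i, rfl⟩)
    · have : Encodable.encode ν ≠ Encodable.encode ν0 := fun e => h3 (Encodable.encode_injective e)
      exact ⟨by omega, fun i μ h => (h2 i μ h).trans (Nat.lt_succ_self _)⟩
    · refine ⟨enc_lt i ν0, fun i' μ h => ?_⟩
      rw [← (List.cons.inj h).2]; exact Nat.lt_succ_self _

/-- invariant with the widths -/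
def InvW (Ψ : (Xx → ℝ) → Set Y) (p : Xx → Y) (n : ℕ) (S : St) : Prop :=
  Inv Ψ p (live n) S ∧ ∀ ν ∈ live n, S.b ν - S.a ν = (1 / 2) ^ ν.length

/-- one step -/
def Rel (Ψ : (Xx → ℝ) → Set Y) (p : Xx → Y) (ν0 : List ℕ) (S S' : St) (x : Xx) : Prop :=
  S.f ≤ S'.f ∧ S'.g ≤ S.g ∧ x ∈ S.Z ν0 ∧ (Even ν0.length → p x ∈ Ψ S'.f) ∧
    (¬ Even ν0.length → p x ∉ Ψ S'.g) ∧
    (∀ ν ∈ live (Encodable.encode ν0), S'.Z ν ⊆ S.Z ν ∧ S'.reg ν ⊆ S.reg ν) ∧
    (∀ i, S'.reg (i :: ν0) ⊆ S.reg ν0) ∧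
    Tendsto (fun i => p '' S'.Z (i :: ν0)) atTop (𝓝 (p x)).smallSets

theorem step (hΨ : Ctx Ψ) (ν0 : List ℕ) {S : St} (h : InvW Ψ p (Encodable.encode ν0) S) :
    ∃ S' x, InvW Ψ p (Encodable.encode ν0 + 1) S' ∧ Rel Ψ p ν0 S S' x := by
  obtain ⟨S1, a1, a2, a3, a4, a5, a6⟩ := halve hΨ h.1 (live_enc ν0)
  obtain ⟨S2, x, b1, b2, b3, b4, b5, b6, b7, b8, b9⟩ := branch hΨ a1 (live_enc ν0)
    (fun i hi => lt_irrefl _ (hi.2 i ν0 rfl)) (live_succ ν0) (Even ν0.length)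
  refine ⟨S2, x, ⟨b1, fun ν hν => ?_⟩, a2.trans b2, b3.trans a3, (a4 ν0 (live_enc ν0)).1 b4, b5,
    b6, fun ν hν => ?_, fun i => (b8 i).2.2.trans (a4 ν0 (live_enc ν0)).2, b9⟩
  · rcases (live_succ ν0 ν).1 hν with ⟨h1, h2⟩ | ⟨i, rfl⟩
    · rw [(b7 ν h1).2.2.1, (b7 ν h1).2.2.2, (a5 ν h2).1, (a5 ν h2).2]; exact h.2 ν h1
    · rw [(b8 i).1, (b8 i).2.1, a6, h.2 ν0 (live_enc ν0), List.length_cons, pow_succ]; ring
  · rw [(b7 ν hν).1, (b7 ν hν).2.1]; exact a4 ν hν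

theorem core (hΨ : Ctx Ψ)
    (hin : ∀ x k, p x ∈ Ψ (pw (cyl x k) (fun _ => 1) fun _ => 0))
    (hout : ∀ x k, p x ∉ Ψ (pw (cyl x k) (fun _ => 0) fun _ => 1)) : False := by
  let S0 : St := ⟨fun _ => 0, fun _ => 1, fun _ _ _ => false, fun _ => 0, fun _ => univ,
    fun _ => 0, fun _ => 1⟩
  have l0 : ∀ ν ∈ live 0, ν = [] := fun ν hν => by
    cases ν with
    | nil => rfl
    | cons i μ => exact absurd (hν.2 i μ rfl) (Nat.not_lt_zero _)
  have l1 : [] ∈ live 0 := ⟨Nat.zero_le _, fun i μ h => by simp at h⟩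
  have r0 : ∀ ν, S0.reg ν = univ := fun ν => cyl_zero _
  have h0 : InvW Ψ p 0 S0 := by
    refine ⟨⟨PC.const _, PC.const _, fun _ _ => not_null_univ, fun ν _ => by rw [r0],
      fun _ _ => zero_le_one, fun _ _ _ _ => ⟨rfl, rfl⟩,
      fun ν hν μ hμ _ _ _ => by rw [l0 ν hν, l0 μ hμ],
      fun z hz => (hz [] l1 (by rw [r0]; trivial)).elim, ?_,
      fun _ _ x _ k => ⟨hin x k, hout x k⟩⟩, fun ν hν => by rw [l0 ν hν]; simp [S0]⟩
    convert Fs.of_closed (isClosed_empty (X := Xx)) using 1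
    ext z
    exact ⟨fun hz => (hz [] l1 (by rw [r0]; trivial)).elim, fun hz => hz.elim⟩
  have hst : ∀ n (S : {S // InvW Ψ p n S}), ∃ (S' : {S // InvW Ψ p (n + 1) S}) (x : Xx),
      Rel Ψ p (Denumerable.ofNat (List ℕ) n) S.1 S'.1 x := by
    intro n S
    have e := Denumerable.encode_ofNat (α := List ℕ) n
    obtain ⟨S', x, h1, h2⟩ := step hΨ (Denumerable.ofNat (List ℕ) n) (S := S.1)
      (by rw [e]; exact S.2)
    exact ⟨⟨S', by rw [e] at h1; exact h1⟩, x, h2⟩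
  choose nx x hR using hst
  let T : ∀ n, {S // InvW Ψ p n S} := fun n => Nat.rec ⟨S0, h0⟩ nx n
  set S : ℕ → St := fun n => (T n).1 with hS
  have hI : ∀ n, InvW Ψ p n (S n) := fun n => (T n).2
  set y : List ℕ → Xx := fun ν => x (Encodable.encode ν) (T (Encodable.encode ν)) with hy
  have hRel : ∀ ν, Rel Ψ p ν (S (Encodable.encode ν)) (S (Encodable.encode ν + 1)) (y ν) := by
    intro ν
    have := hR (Encodable.encode ν) (T (Encodable.encode ν))
    rwa [Denumerable.ofNat_encode] at this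
  have hall : ∀ n, ∃ ν : List ℕ, Encodable.encode ν = n := fun n =>
    ⟨_, Denumerable.encode_ofNat n⟩
  have hfm : Monotone fun n => (S n).f := monotone_nat_of_le_succ fun n => by
    obtain ⟨ν, rfl⟩ := hall n
    exact (hRel ν).1
  have hgm : Antitone fun n => (S n).g := antitone_nat_of_succ_le fun n => by
    obtain ⟨ν, rfl⟩ := hall n
    exact (hRel ν).2.1
  have hprog : ∀ z (ν : List ℕ) (r n : ℕ), n + r = Encodable.encode ν → ν ∈ live n →
      z ∈ (S n).reg ν → ∃ N, (S N).g z - (S N).f z ≤ (1 / 2) ^ (ν.length + 1) := by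
    intro z ν r
    have cases' : ∀ ν0 : List ℕ, ν ∈ live (Encodable.encode ν0) →
        z ∈ (S (Encodable.encode ν0)).reg ν →
        (S (Encodable.encode ν0 + 1)).g z - (S (Encodable.encode ν0 + 1)).f z ≤
          (1 / 2) ^ (ν.length + 1) ∨ (ν ≠ ν0 ∧ z ∈ (S (Encodable.encode ν0 + 1)).reg ν) := by
      intro ν0 hν hz
      have I0 := (hI (Encodable.encode ν0)).1
      have I1 := hI (Encodable.encode ν0 + 1)
      by_cases c : ∀ μ ∈ live (Encodable.encode ν0 + 1), z ∉ (S (Encodable.encode ν0 + 1)).reg μ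
      · left
        rw [I1.1.dead z c, sub_self]; positivity
      push Not at c
      obtain ⟨μ, hμ, hzμ⟩ := c
      rcases (live_succ ν0 μ).1 hμ with ⟨h1, h2⟩ | ⟨i, rfl⟩
      · have := I0.dis ν hν μ h1 z hz (((hRel ν0).2.2.2.2.2.1 μ h1).2 hzμ)
        subst this
        exact Or.inr ⟨h2, hzμ⟩
      · have := I0.dis ν hν ν0 (live_enc ν0) z hz ((hRel ν0).2.2.2.2.2.2.1 i hzμ)
        subst this
        left
        rw [(I1.1.val _ hμ z hzμ).1, (I1.1.val _ hμ z hzμ).2, I1.2 _ hμ, List.length_cons]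
    induction r with
    | zero =>
      intro n hn hν hz
      rw [add_zero] at hn
      subst hn
      rcases cases' ν hν hz with h | h
      · exact ⟨Encodable.encode ν + 1, h⟩
      · exact (h.1 rfl).elim
    | succ r ih =>
      intro n hn hν hz
      obtain ⟨ν0, rfl⟩ := hall n
      rcases cases' ν0 hν hz with h | h
      · exact ⟨Encodable.encode ν0 + 1, h⟩
      · exact ih _ (by omega) ((live_succ ν0 ν).2 (Or.inl ⟨hν, h.1⟩)) h.2
  have hw : ∀ (d : ℕ) z, ∃ n, (S n).g z - (S n).f z ≤ (1 / 2) ^ d := by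
    intro d z
    induction d with
    | zero => exact ⟨0, by simp [hS, T, S0]⟩
    | succ d ih =>
      obtain ⟨n, hn⟩ := ih
      by_cases c : ∀ μ ∈ live n, z ∉ (S n).reg μ
      · exact ⟨n, by rw [(hI n).1.dead z c, sub_self]; positivity⟩
      push Not at c
      obtain ⟨μ, hμ, hz⟩ := c
      obtain ⟨N, hN⟩ := hprog z μ (Encodable.encode μ - n) n (by have := hμ.1; omega) hμ hz
      rw [((hI n).1.val μ hμ z hz).1, ((hI n).1.val μ hμ z hz).2, (hI n).2 μ hμ] at hn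
      refine ⟨N, hN.trans ?_⟩
      rw [pow_succ, pow_succ]; linarith
  obtain ⟨h, hUL, hh⟩ := exists_ul_between (fun n => (S n).f) (fun n => (S n).g)
    (fun n => (hI n).1.pf) (fun n => (hI n).1.pg) hfm hgm (fun n => (hI n).1.le) hw
  refine tree_contra (Ψ h) (hΨ.amb h hUL).1 (hΨ.amb h hUL).2 (fun ν => p (y ν))
    (fun ν => ?_) (fun ν => ?_)
  · by_cases he : Even ν.length
    · exact iff_of_true (hΨ.mono _ _ (hI (Encodable.encode ν + 1)).1.pf.ul hUL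
        (hh (Encodable.encode ν + 1)).1 ((hRel ν).2.2.2.1 he)) he
    · exact iff_of_false (fun hc => (hRel ν).2.2.2.2.1 he (hΨ.mono _ _ hUL
        (hI (Encodable.encode ν + 1)).1.pg.ul (hh (Encodable.encode ν + 1)).2 hc)) he
  · refine (hRel ν).2.2.2.2.2.2.2.of_smallSets (Eventually.of_forall fun i => ?_)
    refine mem_image_of_mem p ?_
    have key : ∀ r, Encodable.encode ν + 1 + r ≤ Encodable.encode (i :: ν) →
        (S (Encodable.encode ν + 1 + r)).Z (i :: ν) ⊆ (S (Encodable.encode ν + 1)).Z (i :: ν) := by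
      intro r
      induction r with
      | zero => exact fun _ => subset_rfl
      | succ r ih =>
        intro hr
        obtain ⟨ν0, h0⟩ := hall (Encodable.encode ν + 1 + r)
        have hl : i :: ν ∈ live (Encodable.encode ν0) :=
          ⟨by omega, fun i' μ h => by rw [← (List.cons.inj h).2]; omega⟩
        have := ((hRel ν0).2.2.2.2.2.1 _ hl).1
        rw [h0] at this
        exact this.trans (ih (by omega))
    have e := enc_lt i ν
    have := key (Encodable.encode (i :: ν) - (Encodable.encode ν + 1)) (by omega)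
    rw [show Encodable.encode ν + 1 + (Encodable.encode (i :: ν) - (Encodable.encode ν + 1)) =
      Encodable.encode (i :: ν) by omega] at this
    exact this (hRel (i :: ν)).2.2.1

end Pool.Agent.Lib.MP_9ddde4_lc
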