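import Pool.Agent.Lib.MP_9ddde4_lc.Fail

set_option autoImplicit false
open Filter Topology Set

namespace Pool.Agent.Lib.MP_9ddde4_lc

variable {Y : Type*} [TopologicalSpace Y] [PolishSpace Y]

/-- a stage of the construction -/
structure St where
  f : Xx → ℝ
  g : Xx → ℝ
  t : List ℕ → Xx
  l : List ℕ → ℕ
  Z : List ℕ → Set Xx
  a : List ℕ → ℝ
  b : List ℕ → ℝ

def St.reg (S : St) (ν : List ℕ) : Set Xx := cyl (S.t ν) (S.l ν)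

/-- the point `p x` is decided by the values on every cylinder around `x` -/
def Good (Ψ : (Xx → ℝ) → Set Y) (p : Xx → Y) (f g : Xx → ℝ) (x : Xx) : Prop :=
  ∀ k, p x ∈ Ψ (pw (cyl x k) g f) ∧ p x ∉ Ψ (pw (cyl x k) f g)

structure Inv (Ψ : (Xx → ℝ) → Set Y) (p : Xx → Y) (Λ : Set (List ℕ)) (S : St) : Prop where
  pf : PC S.f
  pg : PC S.g
  pos : ∀ ν ∈ Λ, ¬ Null (S.Z ν)
  sub : ∀ ν ∈ Λ, S.Z ν ⊆ S.reg ν
  ab : ∀ ν ∈ Λ, S.a ν ≤ S.b ν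
  val : ∀ ν ∈ Λ, ∀ z ∈ S.reg ν, S.f z = S.a ν ∧ S.g z = S.b ν
  dis : ∀ ν ∈ Λ, ∀ μ ∈ Λ, ∀ z, z ∈ S.reg ν → z ∈ S.reg μ → ν = μ
  dead : ∀ z, (∀ ν ∈ Λ, z ∉ S.reg ν) → S.f z = S.g z
  fs : Fs {z | ∀ ν ∈ Λ, z ∉ S.reg ν}
  good : ∀ ν ∈ Λ, ∀ x ∈ S.Z ν, Good Ψ p S.f S.g x

variable {Ψ : (Xx → ℝ) → Set Y} {p : Xx → Y}

omit [TopologicalSpace Y] [PolishSpace Y] in
theorem Inv.le {Λ : Set (List ℕ)} {S : St} (h : Inv Ψ p Λ S) : S.f ≤ S.g := by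
  intro z
  by_cases hz : ∀ ν ∈ Λ, z ∉ S.reg ν
  · exact (h.dead z hz).le
  · push Not at hz
    obtain ⟨ν, hν, hz⟩ := hz
    rw [(h.val ν hν z hz).1, (h.val ν hν z hz).2]; exact h.ab ν hν

omit [PolishSpace Y] in
theorem good_of_large (hΨ : Ctx Ψ) {f g : Xx → ℝ} (hf : PC f) (hg : PC g) (hfg : f ≤ g) {x : Xx}
    (l : ℕ) (h : ∀ k, l ≤ k → p x ∈ Ψ (pw (cyl x k) g f) ∧ p x ∉ Ψ (pw (cyl x k) f g)) :
    Good Ψ p f g x := by
  intro k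
  have hs : cyl x (max l k) ⊆ cyl x k := cyl_anti x (le_max_right _ _)
  obtain ⟨h1, h2⟩ := h (max l k) (le_max_left _ _)
  refine ⟨hΨ.mono _ _ (pc_cyl _ _ hg hf).ul (pc_cyl _ _ hg hf).ul (fun z => ?_) h1,
    fun hc => h2 (hΨ.mono _ _ (pc_cyl _ _ hf hg).ul (pc_cyl _ _ hf hg).ul (fun z => ?_) hc)⟩
  · by_cases c : z ∈ cyl x (max l k)
    · rw [pw_in c, pw_in (hs c)]
    · rw [pw_out c]
      by_cases c' : z ∈ cyl x k
      · rw [pw_in c']; exact hfg z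
      · rw [pw_out c']
  · by_cases c : z ∈ cyl x (max l k)
    · rw [pw_in c, pw_in (hs c)]
    · rw [pw_out c]
      by_cases c' : z ∈ cyl x k
      · rw [pw_in c']; exact hfg z
      · rw [pw_out c']

omit [PolishSpace Y] in
theorem good_in (hΨ : Ctx Ψ) {f g f' g' : Xx → ℝ} (hf : PC f) (hg : PC g) (hf' : PC f')
    (hg' : PC g') (h1 : f ≤ f') {x : Xx} (hx : Good Ψ p f g x) {k : ℕ}
    (he : ∀ z ∈ cyl x k, g' z = g z) : p x ∈ Ψ (pw (cyl x k) g' f') := by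
  refine hΨ.mono _ _ (pc_cyl _ _ hg hf).ul (pc_cyl _ _ hg' hf').ul (fun z => ?_) (hx k).1
  by_cases c : z ∈ cyl x k
  · rw [pw_in c, pw_in c, he z c]
  · rw [pw_out c, pw_out c]; exact h1 z

omit [PolishSpace Y] in
theorem good_out (hΨ : Ctx Ψ) {f g f' g' : Xx → ℝ} (hf : PC f) (hg : PC g) (hf' : PC f')
    (hg' : PC g') (h1 : g' ≤ g) {x : Xx} (hx : Good Ψ p f g x) {k : ℕ}
    (he : ∀ z ∈ cyl x k, f' z = f z) : p x ∉ Ψ (pw (cyl x k) f' g') := by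
  refine fun hc => (hx k).2
    (hΨ.mono _ _ (pc_cyl _ _ hf' hg').ul (pc_cyl _ _ hf hg).ul (fun z => ?_) hc)
  by_cases c : z ∈ cyl x k
  · rw [pw_in c, pw_in c, he z c]
  · rw [pw_out c, pw_out c]; exact h1 z

omit [TopologicalSpace Y] [PolishSpace Y] in
theorem Inv.fs_shrink {Λ : Set (List ℕ)} {S : St} (h : Inv Ψ p Λ S) (R : List ℕ → Set Xx)
    (hs : ∀ ν ∈ Λ, R ν ⊆ S.reg ν) (hf : ∀ ν ∈ Λ, Fs (R ν)ᶜ) : Fs {z | ∀ ν ∈ Λ, z ∉ R ν} := by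
  have : {z | ∀ ν ∈ Λ, z ∉ R ν} =
      {z | ∀ ν ∈ Λ, z ∉ S.reg ν} ∪ ⋃ ν ∈ Λ, S.reg ν ∩ (R ν)ᶜ := by
    ext z
    simp only [mem_ofPred_eq, mem_union, mem_iUnion, mem_inter_iff, mem_compl_iff, exists_prop]
    constructor
    · intro hz
      by_cases c : ∀ ν ∈ Λ, z ∉ S.reg ν
      · exact Or.inl c
      · push Not at c
        obtain ⟨ν, hν, hzν⟩ := c
        exact Or.inr ⟨ν, hν, hzν, hz ν hν⟩
    · rintro (hz | ⟨μ, hμ, hzμ, hz⟩) ν hν hzν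
      · exact hz ν hν (hs ν hν hzν)
      · rw [h.dis ν hν μ hμ z (hs ν hν hzν) hzμ] at hzν
        exact hz hzν
  rw [this]
  exact h.fs.union (Fs.biUnion (to_countable Λ) fun ν hν =>
    (Fs.of_closed (cyl_closed _ _)).inter (hf ν hν))

/-- union of the chosen subregions of the other live cells -/
def oth (Λ : Set (List ℕ)) (ν0 : List ℕ) (t : List ℕ → Xx) (l : List ℕ → ℕ) : Set Xx :=
  {z | ∃ ν ∈ Λ, ν ≠ ν0 ∧ z ∈ cyl (t ν) (l ν)}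

omit [TopologicalSpace Y] [PolishSpace Y] in
theorem Inv.pc_oth {Λ : Set (List ℕ)} {S : St} (h : Inv Ψ p Λ S) (ν0 : List ℕ)
    {t : List ℕ → Xx} {l : List ℕ → ℕ} (hs : ∀ ν ∈ Λ, cyl (t ν) (l ν) ⊆ S.reg ν)
    {u v : Xx → ℝ} (hu : PC u) (hv : PC v) : PC (pw (oth Λ ν0 t l) u v) := by
  refine PC.pw ?_ ?_ hu hv
  · have : oth Λ ν0 t l = ⋃ ν ∈ {ν | ν ∈ Λ ∧ ν ≠ ν0}, cyl (t ν) (l ν) := by
      ext z; simp [oth, and_assoc]
    rw [this]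
    exact Fs.biUnion (to_countable _) fun ν _ => Fs.of_closed (cyl_closed _ _)
  · have := h.fs_shrink (fun ν => {z | ν ≠ ν0 ∧ z ∈ cyl (t ν) (l ν)})
      (fun ν hν z hz => hs ν hν hz.2) (fun ν _ => by
        by_cases c : ν = ν0
        · simpa [c] using Fs.of_closed isClosed_univ
        · simpa [c] using Fs.of_open (cyl_closed (t ν) (l ν)).isOpen_compl)
    convert this using 1
    ext z; simp [oth]

omit [PolishSpace Y] in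
theorem shrink (hΨ : Ctx Ψ) {Λ : Set (List ℕ)} {S : St} (h : Inv Ψ p Λ S) {ν0 : List ℕ}
    (h0 : ν0 ∈ Λ) {t : List ℕ → Xx} {l : List ℕ → ℕ}
    (hs : ∀ ν ∈ Λ, cyl (t ν) (l ν) ⊆ S.reg ν)
    (hp : ∀ ν ∈ Λ, ¬ Null (S.Z ν ∩ cyl (t ν) (l ν))) {y : Xx} {j : ℕ} {W : Set Xx}
    (hy : cyl y j ⊆ S.reg ν0) (hW : W ⊆ S.Z ν0 ∩ cyl y j) (hWp : ¬ Null W) {a0 b0 : ℝ}
    (ha : S.a ν0 ≤ a0) (hab : a0 ≤ b0) (hb : b0 ≤ S.b ν0) {w : Xx → ℝ} (hw : PC w)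
    (hfw : S.f ≤ w) (hwg : w ≤ S.g)
    (hin : b0 = S.b ν0 ∨ ∀ x ∈ W, ∀ k, j ≤ k → p x ∈ Ψ (pw (cyl x k) (fun _ => b0)
      (pw (cyl x j) (fun _ => a0) (pw (oth Λ ν0 t l) S.f w))))
    (hout : a0 = S.a ν0 ∨ ∀ x ∈ W, ∀ k, j ≤ k → p x ∉ Ψ (pw (cyl x k) (fun _ => a0)
      (pw (cyl x j) (fun _ => b0) (pw (oth Λ ν0 t l) S.g w)))) :
    ∃ S' : St, Inv Ψ p Λ S' ∧ S.f ≤ S'.f ∧ S'.g ≤ S.g ∧
      (∀ ν ∈ Λ, S'.Z ν ⊆ S.Z ν ∧ S'.reg ν ⊆ S.reg ν) ∧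
      (∀ ν, ν ≠ ν0 → S'.a ν = S.a ν ∧ S'.b ν = S.b ν) ∧ S'.a ν0 = a0 ∧ S'.b ν0 = b0 := by
  classical
  set f' := pw (cyl y j) (fun _ => a0) (pw (oth Λ ν0 t l) S.f w) with hf'
  set g' := pw (cyl y j) (fun _ => b0) (pw (oth Λ ν0 t l) S.g w) with hg'
  have pf' : PC f' := pc_cyl _ _ (PC.const _) (h.pc_oth ν0 hs h.pf hw)
  have pg' : PC g' := pc_cyl _ _ (PC.const _) (h.pc_oth ν0 hs h.pg hw)
  have v0 : ∀ z ∈ cyl y j, f' z = a0 ∧ g' z = b0 := fun z hz => ⟨pw_in hz, pw_in hz⟩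
  have v1 : ∀ z ∈ oth Λ ν0 t l, f' z = S.f z ∧ g' z = S.g z := by
    rintro z ⟨ν, hν, hne, hz⟩
    have c : z ∉ cyl y j := fun c => hne (h.dis ν hν ν0 h0 z (hs ν hν hz) (hy c))
    have c' : z ∈ oth Λ ν0 t l := ⟨ν, hν, hne, hz⟩
    rw [hf', hg', pw_out c, pw_out c, pw_in c', pw_in c']
    exact ⟨rfl, rfl⟩
  have v2 : ∀ z, z ∉ cyl y j → z ∉ oth Λ ν0 t l → f' z = w z ∧ g' z = w z := fun z c c' => by
    rw [hf', hg', pw_out c, pw_out c, pw_out c', pw_out c']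
    exact ⟨rfl, rfl⟩
  have ord : ∀ z, S.f z ≤ f' z ∧ f' z ≤ g' z ∧ g' z ≤ S.g z := by
    intro z
    by_cases c : z ∈ cyl y j
    · rw [(v0 z c).1, (v0 z c).2, (h.val ν0 h0 z (hy c)).1, (h.val ν0 h0 z (hy c)).2]
      exact ⟨ha, hab, hb⟩
    by_cases c' : z ∈ oth Λ ν0 t l
    · rw [(v1 z c').1, (v1 z c').2]; exact ⟨le_rfl, h.le z, le_rfl⟩
    · rw [(v2 z c c').1, (v2 z c c').2]; exact ⟨hfw z, le_rfl, hwg z⟩
  let S' : St := ⟨f', g', Function.update t ν0 y, Function.update l ν0 j,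
    Function.update (fun ν => S.Z ν ∩ cyl (t ν) (l ν)) ν0 W, Function.update S.a ν0 a0,
    Function.update S.b ν0 b0⟩
  have r0 : S'.reg ν0 = cyl y j := by simp [S', St.reg]
  have r1 : ∀ ν, ν ≠ ν0 → S'.reg ν = cyl (t ν) (l ν) := fun ν c => by simp [S', St.reg, c]
  have z0 : S'.Z ν0 = W := by simp [S']
  have z1 : ∀ ν, ν ≠ ν0 → S'.Z ν = S.Z ν ∩ cyl (t ν) (l ν) := fun ν c => by simp [S', c]
  have a0' : S'.a ν0 = a0 ∧ S'.b ν0 = b0 := by simp [S']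
  have a1 : ∀ ν, ν ≠ ν0 → S'.a ν = S.a ν ∧ S'.b ν = S.b ν := fun ν c => by simp [S', c]
  have rs : ∀ ν ∈ Λ, S'.reg ν ⊆ S.reg ν := fun ν hν => by
    by_cases c : ν = ν0
    · rw [c, r0]; exact hy
    · rw [r1 ν c]; exact hs ν hν
  refine ⟨S', ⟨pf', pg', fun ν hν => ?_, fun ν hν => ?_, fun ν hν => ?_, fun ν hν z hz => ?_,
    fun ν hν μ hμ z h1 h2 => h.dis ν hν μ hμ z (rs ν hν h1) (rs μ hμ h2), fun z hz => ?_,
    h.fs_shrink _ rs fun ν _ => Fs.of_open (cyl_closed _ _).isOpen_compl, fun ν hν x hx => ?_⟩,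
    fun z => (ord z).1, fun z => (ord z).2.2, fun ν hν => ⟨?_, rs ν hν⟩, a1, a0'⟩
  · by_cases c : ν = ν0
    · rw [c, z0]; exact hWp
    · rw [z1 ν c]; exact hp ν hν
  · by_cases c : ν = ν0
    · rw [c, z0, r0]; exact fun z hz => (hW hz).2
    · rw [z1 ν c, r1 ν c]; exact inter_subset_right
  · by_cases c : ν = ν0
    · rw [c, a0'.1, a0'.2]; exact hab
    · rw [(a1 ν c).1, (a1 ν c).2]; exact h.ab ν hν
  · by_cases c : ν = ν0
    · rw [c, r0] at hz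
      rw [c, a0'.1, a0'.2]; exact v0 z hz
    · have hz' := rs ν hν hz
      rw [r1 ν c] at hz
      rw [(a1 ν c).1, (a1 ν c).2, ← (h.val ν hν z hz').1, ← (h.val ν hν z hz').2]
      exact v1 z ⟨ν, hν, c, hz⟩
  · have c : z ∉ cyl y j := by rw [← r0]; exact hz ν0 h0
    have c' : z ∉ oth Λ ν0 t l := fun ⟨ν, hν, hne, h'⟩ => hz ν hν (by rw [r1 ν hne]; exact h')
    exact (v2 z c c').1.trans (v2 z c c').2.symm
  · by_cases c : ν = ν0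
    · rw [c, z0] at hx
      have hxy := (hW hx).2
      have hg := h.good ν0 h0 x (hW hx).1
      refine good_of_large hΨ pf' pg' (fun z => (ord z).2.1) j fun k hk => ⟨?_, ?_⟩
      · rcases hin with hin | hin
        · refine good_in hΨ h.pf h.pg pf' pg' (fun z => (ord z).1) hg fun z hz => ?_
          have := cyl_sub hxy hk hz
          rw [(v0 z this).2, hin, (h.val ν0 h0 z (hy this)).2]
        · have := hin x hx k hk
          rw [cyl_eq hxy] at this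
          convert this using 2
          funext z
          by_cases c1 : z ∈ cyl x k
          · rw [pw_in c1, pw_in c1]; exact (v0 z (cyl_sub hxy hk c1)).2
          · rw [pw_out c1, pw_out c1]
      · rcases hout with hout | hout
        · refine good_out hΨ h.pf h.pg pf' pg' (fun z => (ord z).2.2) hg fun z hz => ?_
          have := cyl_sub hxy hk hz
          rw [(v0 z this).1, hout, (h.val ν0 h0 z (hy this)).1]
        · have := hout x hx k hk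
          rw [cyl_eq hxy] at this
          convert this using 3
          funext z
          by_cases c1 : z ∈ cyl x k
          · rw [pw_in c1, pw_in c1]; exact (v0 z (cyl_sub hxy hk c1)).1
          · rw [pw_out c1, pw_out c1]
    · rw [z1 ν c] at hx
      have hg := h.good ν hν x hx.1
      have e : ∀ k, l ν ≤ k → ∀ z ∈ cyl x k, f' z = S.f z ∧ g' z = S.g z := fun k hk z hz =>
        v1 z ⟨ν, hν, c, cyl_sub hx.2 hk hz⟩
      exact good_of_large hΨ pf' pg' (fun z => (ord z).2.1) (l ν) fun k hk =>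
        ⟨good_in hΨ h.pf h.pg pf' pg' (fun z => (ord z).1) hg fun z hz => (e k hk z hz).2,
          good_out hΨ h.pf h.pg pf' pg' (fun z => (ord z).2.2) hg fun z hz => (e k hk z hz).1⟩
  · by_cases c : ν = ν0
    · rw [c, z0]; exact fun z hz => (hW hz).1
    · rw [z1 ν c]; exact inter_subset_left

theorem halve (hΨ : Ctx Ψ) {Λ : Set (List ℕ)} {S : St} (h : Inv Ψ p Λ S) {ν0 : List ℕ}
    (h0 : ν0 ∈ Λ) :
    ∃ S' : St, Inv Ψ p Λ S' ∧ S.f ≤ S'.f ∧ S'.g ≤ S.g ∧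
      (∀ ν ∈ Λ, S'.Z ν ⊆ S.Z ν ∧ S'.reg ν ⊆ S.reg ν) ∧
      (∀ ν, ν ≠ ν0 → S'.a ν = S.a ν ∧ S'.b ν = S.b ν) ∧
      S'.b ν0 - S'.a ν0 = (S.b ν0 - S.a ν0) / 2 := by
  have hex : ∀ ν, ∃ (y : Bool → Xx) (l : ℕ), ν ∈ Λ → (∀ c, cyl (y c) l ⊆ S.reg ν) ∧
      (∀ c, ¬ Null (S.Z ν ∩ cyl (y c) l)) ∧ Disjoint (cyl (y false) l) (cyl (y true) l) := by
    intro ν
    by_cases hν : ν ∈ Λ
    · obtain ⟨y, l, hl, h1, h2⟩ := exists_two (h.pos ν hν) (S.l ν)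
      refine ⟨y, l, fun _ => ⟨fun c => ?_, h1, h2⟩⟩
      obtain ⟨z, hz, hz'⟩ := nonempty_of_not_null (h1 c)
      rw [← cyl_eq hz']
      exact cyl_sub (h.sub ν hν hz) hl
    · exact ⟨fun _ _ _ => false, 0, fun h' => (hν h').elim⟩
  choose y l hy using hex
  set a := S.a ν0 with ha
  set b := S.b ν0 with hb
  have hab : a ≤ b := h.ab ν0 h0
  set m := (a + b) / 2 with hm
  have ham : a ≤ m := by rw [hm]; linarith
  have hmb : m ≤ b := by rw [hm]; linarith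
  set wL := pw (oth Λ ν0 (fun ν => y ν false) l) S.f S.g with hwL
  set wU := pw (oth Λ ν0 (fun ν => y ν true) l) S.g S.f with hwU
  set PL : ℕ → Set Xx := fun j => {x ∈ S.Z ν0 | S.l ν0 ≤ j ∧ ∀ k, j ≤ k →
    p x ∈ Ψ (pw (cyl x k) (fun _ => m) (pw (cyl x j) (fun _ => a) wL))} with hPL
  set PU : ℕ → Set Xx := fun j => {x ∈ S.Z ν0 | S.l ν0 ≤ j ∧ ∀ k, j ≤ k →
    p x ∉ Ψ (pw (cyl x k) (fun _ => m) (pw (cyl x j) (fun _ => b) wU))} with hPU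
  by_cases cL : ∀ j, Null (PL j)
  swap
  · push Not at cL
    obtain ⟨j, hj⟩ := cL
    obtain ⟨y0, hy0⟩ := exists_cyl_not_null hj j
    obtain ⟨z, hz, hz'⟩ := nonempty_of_not_null hy0
    obtain ⟨S', h1, h2, h3, h4, h5, h6, h7⟩ := shrink hΨ h h0 (t := fun ν => y ν false) (l := l)
      (fun ν hν => (hy ν hν).1 false) (fun ν hν => (hy ν hν).2.1 false) (y := y0) (j := j)
      (by rw [← cyl_eq hz']; exact cyl_sub (h.sub ν0 h0 hz.1) hz.2.1)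
      (fun x hx => ⟨hx.1.1, hx.2⟩) hy0 le_rfl ham hmb h.pg h.le le_rfl
      (Or.inr fun x hx => hx.1.2.2) (Or.inl rfl)
    exact ⟨S', h1, h2, h3, h4, h5, by rw [h6, h7, hm]; ring⟩
  by_cases cU : ∀ j, Null (PU j)
  swap
  · push Not at cU
    obtain ⟨j, hj⟩ := cU
    obtain ⟨y0, hy0⟩ := exists_cyl_not_null hj j
    obtain ⟨z, hz, hz'⟩ := nonempty_of_not_null hy0
    obtain ⟨S', h1, h2, h3, h4, h5, h6, h7⟩ := shrink hΨ h h0 (t := fun ν => y ν true) (l := l)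
      (fun ν hν => (hy ν hν).1 true) (fun ν hν => (hy ν hν).2.1 true) (y := y0) (j := j)
      (by rw [← cyl_eq hz']; exact cyl_sub (h.sub ν0 h0 hz.1) hz.2.1)
      (fun x hx => ⟨hx.1.1, hx.2⟩) hy0 ham hmb le_rfl h.pf le_rfl h.le
      (Or.inl rfl) (Or.inr fun x hx => hx.1.2.2)
    exact ⟨S', h1, h2, h3, h4, h5, by rw [h6, h7, hm]; ring⟩
  exfalso
  have hno : ∀ c, ∀ z ∈ S.reg ν0, z ∉ oth Λ ν0 (fun ν => y ν c) l :=
    fun c z hz ⟨ν, hν, hne, h'⟩ => hne (h.dis ν hν ν0 h0 z ((hy ν hν).1 c h') hz)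
  refine fail hΨ p (wU := wU) (wL := wL)
    (h.pc_oth ν0 (fun ν hν => (hy ν hν).1 true) h.pg h.pf)
    (h.pc_oth ν0 (fun ν hν => (hy ν hν).1 false) h.pf h.pg) (fun z => ?_) (y := S.t ν0)
    (n := S.l ν0) ham hmb (fun z hz => ?_) (fun z hz => ?_)
    (Z := S.Z ν0 \ ((⋃ j, PL j) ∪ ⋃ j, PU j)) (fun hc => h.pos ν0 h0 ?_)
    (fun z hz => h.sub ν0 h0 hz.1) (fun x hx j hj => ?_) (fun x hx j hj => ?_)
  · by_cases c1 : z ∈ oth Λ ν0 (fun ν => y ν true) l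
    · have c2 : z ∉ oth Λ ν0 (fun ν => y ν false) l := by
        obtain ⟨ν, hν, -, h1⟩ := c1
        rintro ⟨μ, hμ, -, h2⟩
        have := h.dis ν hν μ hμ z ((hy ν hν).1 _ h1) ((hy μ hμ).1 _ h2)
        subst this
        exact Set.disjoint_left.1 (hy ν hν).2.2 h2 h1
      rw [hwU, hwL, pw_in c1, pw_out c2]
    · rw [hwU, hwL, pw_out c1]
      by_cases c2 : z ∈ oth Λ ν0 (fun ν => y ν false) l
      · rw [pw_in c2]
      · rw [pw_out c2]; exact h.le z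
  · rw [hwU, pw_out (hno true z hz)]; exact (h.val ν0 h0 z hz).1
  · rw [hwL, pw_out (hno false z hz)]; exact (h.val ν0 h0 z hz).2
  · refine (hc.union ((null_iUnion cL).union (null_iUnion cU))).mono fun z hz => ?_
    by_cases c : z ∈ (⋃ j, PL j) ∪ ⋃ j, PU j
    · exact Or.inr c
    · exact Or.inl ⟨hz, c⟩
  · by_contra hc
    push Not at hc
    exact hx.2 (Or.inl (mem_iUnion.2 ⟨j, hx.1, hj, hc⟩))
  · by_contra hc
    push Not at hc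
    exact hx.2 (Or.inr (mem_iUnion.2 ⟨j, hx.1, hj, hc⟩))

end Pool.Agent.Lib.MP_9ddde4_lc
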